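import Mathlib
import Pool.Agent.J4.H38.DV.Defs
import Pool.Agent.J4.H38.SR2.Gold1

/-! Project DV (helper38), piece RAV1: averages over the shifts in `AW w N H`. -/

set_option autoImplicit false

namespace Pool.Agent.J4.H31.DV

open Finset Filter
open Pool.Agent.Y822
open Pool.Agent.J4.H38.SR
open Pool.Agent.J4.H38.SR2
open Pool.Agent.J4.H38.DV
open Pool.Agent.H373R2.T7 (pz Vz mem_pz)

lemma count_int (a : ℤ) (H q : ℕ) (hq : 1 ≤ q) :
    ∑ t ∈ Icc 1 H, (if (q : ℤ) ∣ (t : ℤ) + a then (1 : ℝ) else 0) ≤ H / q + 1 := by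
  have hq0 : (q : ℤ) ≠ 0 := by exact_mod_cast (by omega : q ≠ 0)
  have h0 : 0 ≤ a % (q : ℤ) := Int.emod_nonneg _ hq0
  obtain ⟨b, hb⟩ := Int.eq_ofNat_of_zero_le h0
  refine le_trans (le_of_eq ?_) (card_mult_le H b q hq)
  refine sum_congr rfl fun t _ => ?_
  have h1 : (q : ℤ) ∣ (t : ℤ) + a ↔ q ∣ t + b := by
    have h2 : (t : ℤ) + a = ((t + b : ℕ) : ℤ) + q * (a / q) := by
      have h3 := Int.emod_add_mul_ediv a q
      push_cast
      rw [← h3] 
      rw [hb]
      have : (b : ℤ) + (q : ℤ) * (a / q) = a := by rw [← hb]; exact h3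
      rw [this]
      linarith
    rw [h2, Int.dvd_add_left (dvd_mul_right _ _)]
    exact Int.natCast_dvd_natCast
  by_cases h : q ∣ t + b
  · rw [if_pos h, if_pos (h1.2 h)]
  · rw [if_neg h, if_neg fun h' => h (h1.1 h')]

/-- the primorial -/
def Wp (w : ℕ) : ℕ := ∏ p ∈ pz w, p

lemma Wp_pos (w : ℕ) : 1 ≤ Wp w := prod_pos fun p hp => (mem_pz.1 hp).2.pos

lemma sumA (C : ℝ) (hC : 0 ≤ C) (a : ℤ) (w N H : ℕ) (ha : ∀ t ∈ AW w N H, (Wp w : ℤ) ∣ (t : ℤ) + a) :
    ∑ t ∈ AW w N H, (∏ p ∈ (pz H).filter (fun p => w < p ∧ (p : ℤ) ∣ (t : ℤ) + a), (1 + C / (p : ℝ)) - 1) ≤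
      H / Wp w * (∏ p ∈ (pz H).filter (fun p => w < p), (1 + C / (p : ℝ) ^ 2) - 1) +
        ∏ p ∈ pz H, (1 + C / (p : ℝ)) := by
  classical
  obtain ⟨S, hS⟩ : ∃ S, S = (pz H).filter (fun p => w < p) := ⟨_, rfl⟩
  have hSp : ∀ p ∈ S, p.Prime ∧ w < p := fun p hp => by
    rw [hS, mem_filter, mem_pz] at hp
    exact ⟨hp.1.2, hp.2⟩
  rw [← hS]
  have h1 : ∀ t ∈ AW w N H, ∏ p ∈ (pz H).filter (fun p => w < p ∧ (p : ℤ) ∣ (t : ℤ) + a), (1 + C / (p : ℝ)) - 1 =
      ∑ P ∈ S.powerset.erase ∅, (∏ p ∈ P, C / (p : ℝ)) * (if (∀ p ∈ P, (p : ℤ) ∣ (t : ℤ) + a) then 1 else 0) := by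
    intro t _
    have e1 : (pz H).filter (fun p => w < p ∧ (p : ℤ) ∣ (t : ℤ) + a) = S.filter (fun p : ℕ => (p : ℤ) ∣ (t : ℤ) + a) := by
      rw [hS, filter_filter]
    rw [e1, prod_one_add]
    have h2 : (S.filter (fun p : ℕ => (p : ℤ) ∣ (t : ℤ) + a)).powerset =
        S.powerset.filter (fun P => ∀ p ∈ P, ((p : ℕ) : ℤ) ∣ (t : ℤ) + a) := by
      ext P
      simp only [mem_powerset, mem_filter, subset_iff]
      constructor
      · exact fun h => ⟨fun p hp => (h hp).1, fun p hp => (h hp).2⟩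
      · exact fun h p hp => ⟨h.1 hp, h.2 p hp⟩
    rw [h2, sum_filter]
    have h3 : (∑ P ∈ S.powerset, if (∀ p ∈ P, ((p : ℕ) : ℤ) ∣ (t : ℤ) + a) then ∏ p ∈ P, C / (p : ℝ) else 0) =
        ∑ P ∈ S.powerset, (∏ p ∈ P, C / (p : ℝ)) * (if (∀ p ∈ P, (p : ℤ) ∣ (t : ℤ) + a) then 1 else 0) := by
      refine sum_congr rfl fun P _ => ?_
      split_ifs <;> simp
    rw [h3, ← add_sum_erase S.powerset _ (empty_mem_powerset S)]
    simp
  rw [sum_congr rfl h1, sum_comm]
  have h3 : ∀ P ∈ S.powerset.erase ∅, ∑ t ∈ AW w N H,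
      (∏ p ∈ P, C / (p : ℝ)) * (if (∀ p ∈ P, (p : ℤ) ∣ (t : ℤ) + a) then (1 : ℝ) else 0) ≤
      H / Wp w * ∏ p ∈ P, (C / (p : ℝ) ^ 2) + ∏ p ∈ P, (C / (p : ℝ)) := by
    intro P hP
    rw [← mul_sum]
    have hPp : ∀ p ∈ P, p.Prime ∧ w < p := fun p hp => hSp p (mem_powerset.1 (mem_of_mem_erase hP) hp)
    have hPpos : 0 < ∏ p ∈ P, p := prod_pos fun p hp => (hPp p hp).1.pos
    have hcop : Nat.Coprime (Wp w) (∏ p ∈ P, p) := by
      unfold Wp
      refine Nat.Coprime.prod_left fun q hq => Nat.Coprime.prod_right fun p hp => ?_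
      rw [Nat.coprime_primes (mem_pz.1 hq).2 (hPp p hp).1]
      have := (mem_pz.1 hq).1
      have := (hPp p hp).2
      omega
    have h4 : ∑ t ∈ AW w N H, (if (∀ p ∈ P, (p : ℤ) ∣ (t : ℤ) + a) then (1 : ℝ) else 0) ≤
        H / ((Wp w * ∏ p ∈ P, p : ℕ) : ℝ) + 1 := by
      refine le_trans ?_ (count_int a H (Wp w * ∏ p ∈ P, p) (Nat.mul_pos (Wp_pos w) hPpos))
      have h5 : ∑ t ∈ AW w N H, (if (∀ p ∈ P, (p : ℤ) ∣ (t : ℤ) + a) then (1 : ℝ) else 0) ≤
          ∑ t ∈ AW w N H, (if ((Wp w * ∏ p ∈ P, p : ℕ) : ℤ) ∣ (t : ℤ) + a then (1 : ℝ) else 0) := by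
        refine sum_le_sum fun t ht => ?_
        by_cases h : ∀ p ∈ P, (p : ℤ) ∣ (t : ℤ) + a
        · have h5 : ((∏ p ∈ P, p : ℕ) : ℤ) ∣ (t : ℤ) + a := by
            rw [Int.natCast_dvd]
            refine Finset.prod_primes_dvd _ (fun p hp => (hPp p hp).1.prime) fun p hp => ?_
            exact Int.natCast_dvd.1 (h p hp)
          have h6 := ha t ht
          have h7 : ((Wp w * ∏ p ∈ P, p : ℕ) : ℤ) ∣ (t : ℤ) + a := by
            rw [Int.natCast_dvd] at h5 h6 ⊢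
            exact Nat.Coprime.mul_dvd_of_dvd_of_dvd hcop h6 h5
          rw [if_pos h, if_pos h7]
        · rw [if_neg h]
          split_ifs <;> norm_num
      refine h5.trans ?_
      refine sum_le_sum_of_subset_of_nonneg (filter_subset _ _) fun t _ _ => ?_
      split_ifs <;> norm_num
    have h6 : 0 ≤ ∏ p ∈ P, C / (p : ℝ) := prod_nonneg fun p _ => by positivity
    have h7 : (∏ p ∈ P, C / (p : ℝ)) * (H / ((Wp w * ∏ p ∈ P, p : ℕ) : ℝ) + 1) =
        H / Wp w * ∏ p ∈ P, (C / (p : ℝ) ^ 2) + ∏ p ∈ P, (C / (p : ℝ)) := by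
      have h8 : ∏ p ∈ P, (C / (p : ℝ) ^ 2) = (∏ p ∈ P, C / (p : ℝ)) / ((∏ p ∈ P, p : ℕ) : ℝ) := by
        push_cast
        rw [← prod_div_distrib]
        refine prod_congr rfl fun p _ => ?_
        rw [sq, div_div]
      rw [h8]
      have h9 : ((∏ p ∈ P, p : ℕ) : ℝ) ≠ 0 := by exact_mod_cast hPpos.ne'
      have h10 : (Wp w : ℝ) ≠ 0 := by exact_mod_cast (by have := Wp_pos w; omega : Wp w ≠ 0)
      rw [Nat.cast_mul]
      field_simp
    rw [← h7]
    exact mul_le_mul_of_nonneg_left h4 h6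
  refine (sum_le_sum h3).trans ?_
  rw [sum_add_distrib, ← mul_sum]
  have h4 : ∑ P ∈ S.powerset.erase ∅, ∏ p ∈ P, (C / (p : ℝ) ^ 2) = ∏ p ∈ S, (1 + C / (p : ℝ) ^ 2) - 1 := by
    rw [prod_one_add, ← add_sum_erase S.powerset _ (empty_mem_powerset S)]
    simp
  have h5 : ∑ P ∈ S.powerset.erase ∅, ∏ p ∈ P, (C / (p : ℝ)) ≤ ∏ p ∈ pz H, (1 + C / (p : ℝ)) := by
    have h6 : ∑ P ∈ S.powerset.erase ∅, ∏ p ∈ P, (C / (p : ℝ)) ≤ ∏ p ∈ S, (1 + C / (p : ℝ)) := by
      rw [prod_one_add]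
      exact sum_le_sum_of_subset_of_nonneg (erase_subset _ _) fun P _ _ => prod_nonneg fun p _ => by positivity
    refine h6.trans ?_
    refine prod_le_prod_of_subset_of_one_le (by rw [hS]; exact filter_subset _ _) (fun p _ => by positivity)
      fun p _ _ => ?_
    have : 0 ≤ C / (p : ℝ) := by positivity
    linarith
  rw [h4]
  linarith

lemma exp_le_two {x : ℝ} (h0 : 0 ≤ x) (h1 : x ≤ 1) : Real.exp x ≤ 1 + 2 * x := by
  have h := abs_le.1 (Real.abs_exp_sub_one_sub_id_le (x := x) (by rw [abs_of_nonneg h0]; exact h1))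
  nlinarith [h.2]

lemma prod_sq (C : ℝ) (hC : 0 ≤ C) (w H : ℕ) (hw : 1 ≤ w) (hCw : C ≤ w) :
    ∏ p ∈ (pz H).filter (fun p => w < p), (1 + C / (p : ℝ) ^ 2) - 1 ≤ 2 * (C / w) := by
  have hw0 : (0 : ℝ) < w := by exact_mod_cast hw
  have h1 : ∏ p ∈ (pz H).filter (fun p => w < p), (1 + C / (p : ℝ) ^ 2) ≤ Real.exp (C / w) := by
    have h2 : ∏ p ∈ (pz H).filter (fun p => w < p), (1 + C / (p : ℝ) ^ 2) ≤
        ∏ p ∈ (pz H).filter (fun p => w < p), Real.exp (C * (1 / (p : ℝ) ^ 2)) := by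
      refine prod_le_prod (fun p _ => by positivity) fun p _ => ?_
      have h4 := Real.add_one_le_exp (C * (1 / (p : ℝ) ^ 2))
      have h5 : C * (1 / (p : ℝ) ^ 2) = C / (p : ℝ) ^ 2 := by ring
      rw [h5] at h4 ⊢
      linarith
    refine h2.trans ?_
    rw [← Real.exp_sum, Real.exp_le_exp, ← mul_sum]
    have h3 := inv_sq_gt (y := w) hw ((pz H).filter (fun p => w < p)) (fun p hp => (mem_filter.1 hp).2)
    have h4 := mul_le_mul_of_nonneg_left h3 hC
    rwa [mul_one_div] at h4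
  have h2 := exp_le_two (x := C / w) (by positivity) (by rw [div_le_one hw0]; exact hCw)
  linarith

lemma prod_small (C : ℝ) (hC : 0 ≤ C) (ε : ℝ) (hε : 0 < ε) : ∀ᶠ H : ℕ in atTop,
    ∏ p ∈ pz H, (1 + C / (p : ℝ)) ≤ ε * H := by
  obtain ⟨c1, hc1, hV⟩ := Vz_sharp
  obtain ⟨m, hm⟩ : ∃ m, m = ⌈C⌉₊ := ⟨_, rfl⟩
  have hCm : C ≤ m := by rw [hm]; exact Nat.le_ceil C
  have h1 : ∀ᶠ x : ℝ in atTop, ‖Real.log x ^ m‖ ≤ ε * c1 ^ m * ‖(id x : ℝ)‖ :=
    (Real.isLittleO_pow_log_id_atTop (n := m)).bound (by positivity)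
  have h2 := tendsto_natCast_atTop_atTop (R := ℝ) |>.eventually h1
  filter_upwards [h2, eventually_ge_atTop 3] with H hH hH3
  have hH0 : (0 : ℝ) < H := by exact_mod_cast (by omega : 0 < H)
  have hH3' : (3 : ℝ) ≤ H := by exact_mod_cast hH3
  have hlH : 1 ≤ Real.log H := by
    have h1 : Real.exp 1 ≤ H := le_trans (by have := Real.exp_one_lt_d9; linarith) hH3'
    have := Real.log_le_log (Real.exp_pos 1) h1
    rwa [Real.log_exp] at this
  rw [Real.norm_of_nonneg (by positivity), id, Real.norm_of_nonneg hH0.le] at hH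
  have h1 : (∏ p ∈ pz H, (1 + C / (p : ℝ))) * Vz H ^ m ≤ 1 := by
    unfold Vz
    rw [← prod_pow, ← prod_mul_distrib]
    refine prod_le_one (fun p hp => ?_) fun p hp => ?_
    · have hp2 : (2 : ℝ) ≤ p := by exact_mod_cast (mem_pz.1 hp).2.two_le
      have ht2 : 1 / (p : ℝ) ≤ 1 / 2 := one_div_le_one_div_of_le (by norm_num) hp2
      have : 0 ≤ 1 - 1 / (p : ℝ) := by linarith
      positivity
    · have hp2 : (2 : ℝ) ≤ p := by exact_mod_cast (mem_pz.1 hp).2.two_le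
      have ht2 : 1 / (p : ℝ) ≤ 1 / 2 := one_div_le_one_div_of_le (by norm_num) hp2
      have h2 : 1 - 1 / (p : ℝ) ≤ Real.exp (-(1 / p)) := by
        have := Real.add_one_le_exp (-(1 / (p : ℝ)))
        linarith
      have h3 : (1 - 1 / (p : ℝ)) ^ m ≤ Real.exp (-(1 / p)) ^ m :=
        pow_le_pow_left₀ (by linarith) h2 m
      have h4 : 1 + C / (p : ℝ) ≤ Real.exp (m * (1 / p)) := by
        have h5 := Real.add_one_le_exp (m * (1 / (p : ℝ)))
        have h6 : C * (1 / (p : ℝ)) ≤ m * (1 / p) := mul_le_mul_of_nonneg_right hCm (by positivity)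
        have h7 : C / (p : ℝ) = C * (1 / p) := by ring
        rw [h7]
        linarith
      calc (1 + C / (p : ℝ)) * (1 - 1 / (p : ℝ)) ^ m
          ≤ Real.exp (m * (1 / p)) * Real.exp (-(1 / p)) ^ m :=
            mul_le_mul h4 h3 (by
              have : 0 ≤ 1 - 1 / (p : ℝ) := by linarith
              positivity) (Real.exp_pos _).le
        _ = 1 := by
            rw [← Real.exp_nat_mul, ← Real.exp_add]
            have : (m : ℝ) * (1 / (p : ℝ)) + (m : ℝ) * -(1 / p) = 0 := by ring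
            rw [this, Real.exp_zero]
  have h3 : (c1 / Real.log H) ^ m ≤ Vz H ^ m := pow_le_pow_left₀ (by positivity) (hV H hH3) m
  have h4 : 0 < (c1 / Real.log H) ^ m := by positivity
  have h5 : 0 ≤ ∏ p ∈ pz H, (1 + C / (p : ℝ)) := prod_nonneg fun p _ => by positivity
  have h6 : (∏ p ∈ pz H, (1 + C / (p : ℝ))) * (c1 / Real.log H) ^ m ≤ 1 :=
    (mul_le_mul_of_nonneg_left h3 h5).trans h1
  have h7 : ∏ p ∈ pz H, (1 + C / (p : ℝ)) ≤ 1 / (c1 / Real.log H) ^ m := by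
    rw [le_div_iff₀ h4]
    exact h6
  refine h7.trans ?_
  have h8 : 1 / (c1 / Real.log H) ^ m = Real.log H ^ m / c1 ^ m := by
    rw [div_pow]
    field_simp
  rw [h8, div_le_iff₀ (by positivity)]
  calc Real.log H ^ m ≤ ε * c1 ^ m * H := hH
    _ = _ := by ring

/-- the primes `> H` contribute little -/
lemma big_part (C : ℝ) (hC : 0 ≤ C) (w y N H t : ℕ) (hH : 3 ≤ H) (hHN : H ≤ N) (hlog : Real.log N ≤ H)
    (ht : t ≤ H) :
    ∏ p ∈ (pz y).filter (fun p => w < p ∧ p ∣ N + t), (1 + C / (p : ℝ)) ≤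
      Real.exp (2 * C / Real.log H) *
        ∏ p ∈ (pz H).filter (fun p => w < p ∧ p ∣ N + t), (1 + C / (p : ℝ)) := by
  classical
  have hH0 : (0 : ℝ) < H := by exact_mod_cast (by omega : 0 < H)
  have hN0 : (0 : ℝ) < N := by exact_mod_cast (by omega : 0 < N)
  have hH3 : (3 : ℝ) ≤ H := by exact_mod_cast hH
  have hlH : 1 ≤ Real.log H := by
    have h1 : Real.exp 1 ≤ H := le_trans (by have := Real.exp_one_lt_d9; linarith) hH3
    have := Real.log_le_log (Real.exp_pos 1) h1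
    rwa [Real.log_exp] at this
  have hone : ∀ p : ℕ, (1 : ℝ) ≤ 1 + C / (p : ℝ) := fun p => by
    have : 0 ≤ C / (p : ℝ) := by positivity
    linarith
  have g2 : ∏ p ∈ (pz y).filter (fun p => w < p ∧ p ∣ N + t), (1 + C / (p : ℝ)) ≤
      ∏ p ∈ (N + t).primeFactors.filter (fun p => w < p), (1 + C / (p : ℝ)) := by
    refine prod_le_prod_of_subset_of_one_le ?_ (fun p _ => by positivity) fun p _ _ => hone p
    intro p hp
    rw [mem_filter, mem_pz] at hp
    rw [mem_filter, Nat.mem_primeFactors]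
    exact ⟨⟨hp.1.2, hp.2.2, by omega⟩, hp.2.1⟩
  refine g2.trans ?_
  rw [← prod_filter_mul_prod_filter_not _ (fun p => H < p)]
  refine mul_le_mul ?_ ?_ (prod_nonneg fun p _ => by positivity) (Real.exp_pos _).le
  · have h1 : ∏ p ∈ ((N + t).primeFactors.filter (fun p => w < p)).filter (fun p => H < p), (1 + C / (p : ℝ)) ≤
        ∏ p ∈ (N + t).primeFactors.filter (fun p => H < p), (1 + C / (p : ℝ)) := by
      refine prod_le_prod_of_subset_of_one_le ?_ (fun p _ => by positivity) fun p _ _ => hone p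
      intro p hp
      rw [mem_filter, mem_filter] at hp
      exact mem_filter.2 ⟨hp.1.1, hp.2⟩
    refine h1.trans ?_
    have h1 : ∏ p ∈ (N + t).primeFactors.filter (fun p => H < p), (1 + C / (p : ℝ)) ≤
        ∏ _p ∈ (N + t).primeFactors.filter (fun p => H < p), Real.exp (C / (H : ℝ)) := by
      refine prod_le_prod (fun p _ => by positivity) fun p hp => ?_
      have h2 : (H : ℝ) ≤ p := by exact_mod_cast (mem_filter.1 hp).2.le
      have h3 : C / (p : ℝ) ≤ C / H := div_le_div_of_nonneg_left hC hH0 h2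
      have h4 := Real.add_one_le_exp (C / (H : ℝ))
      linarith
    refine h1.trans ?_
    rw [prod_const, ← Real.exp_nat_mul, Real.exp_le_exp]
    have h2 := card_big_le H (N + t) (by omega) (by omega)
    have h3 : (((N + t).primeFactors.filter (fun p => H < p)).card : ℝ) ≤ Nat.log H (N + t) := by
      exact_mod_cast h2
    have h4 : (Nat.log H (N + t) : ℝ) ≤ Real.logb H ((N + t : ℕ) : ℝ) := Real.natLog_le_logb _ _
    have h5 : Real.logb H ((N + t : ℕ) : ℝ) ≤ 2 * H / Real.log H := by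
      unfold Real.logb
      refine div_le_div_of_nonneg_right ?_ (by linarith)
      have h6 : Real.log ((N + t : ℕ) : ℝ) ≤ Real.log N + Real.log 2 := by
        rw [← Real.log_mul hN0.ne' (by norm_num)]
        refine Real.log_le_log (by exact_mod_cast (by omega : 0 < N + t)) ?_
        have : ((N + t : ℕ) : ℝ) ≤ ((N * 2 : ℕ) : ℝ) := by exact_mod_cast (by omega : N + t ≤ N * 2)
        push_cast at this ⊢
        exact this
      have h7 : Real.log 2 ≤ 1 := by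
        have := Real.log_two_lt_d9
        linarith
      linarith
    calc _ ≤ (2 * (H : ℝ) / Real.log H) * (C / H) :=
          mul_le_mul_of_nonneg_right (h3.trans (h4.trans h5)) (by positivity)
      _ = 2 * C / Real.log H := by field_simp
  · refine prod_le_prod_of_subset_of_one_le ?_ (fun p _ => by positivity) fun p _ _ => hone p
    intro p hp
    rw [mem_filter, mem_filter, Nat.mem_primeFactors] at hp
    rw [mem_filter, mem_pz]
    exact ⟨⟨not_lt.1 hp.2, hp.1.1.1⟩, hp.1.2, hp.1.1.2.1⟩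

/-- the number of the shifts -/
lemma card_AW (w N H : ℕ) : (H : ℝ) / Wp w ≤ (AW w N H).card + 1 := by
  have hW := Wp_pos w
  have hW0 : (0 : ℝ) < Wp w := by exact_mod_cast hW
  rw [div_le_iff₀ hW0]
  -- the residue class
  have h1 : H / Wp w ≤ (AW w N H).card := by
    have h2 : (range (H / Wp w)).card ≤ (AW w N H).card := by
      refine card_le_card_of_injOn (fun i => (i + 1) * Wp w - N % Wp w) (fun i hi => ?_) fun i hi i' hi' h => ?_
      · rw [mem_coe, mem_range] at hi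
        have h3 : N % Wp w < Wp w := Nat.mod_lt _ hW
        have h4 : (i + 1) * Wp w ≤ H := (Nat.mul_le_mul_right _ hi).trans (Nat.div_mul_le_self H (Wp w))
        have h5 : Wp w ≤ (i + 1) * Wp w := Nat.le_mul_of_pos_left _ (by omega)
        rw [mem_coe]
        unfold AW
        rw [mem_filter, mem_Icc]
        simp only
        refine ⟨by omega, ?_⟩
        change Wp w ∣ _
        have h6 : N + ((i + 1) * Wp w - N % Wp w) = (N / Wp w) * Wp w + (i + 1) * Wp w := by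
          have h7 := Nat.div_add_mod' N (Wp w)
          omega
        rw [h6]
        exact dvd_add (dvd_mul_left _ _) (dvd_mul_left _ _)
      · simp only at h
        have h3 : N % Wp w < Wp w := Nat.mod_lt _ hW
        have h5 : Wp w ≤ (i + 1) * Wp w := Nat.le_mul_of_pos_left _ (by omega)
        have h5' : Wp w ≤ (i' + 1) * Wp w := Nat.le_mul_of_pos_left _ (by omega)
        have h6 : (i + 1) * Wp w = (i' + 1) * Wp w := by omega
        have := Nat.eq_of_mul_eq_mul_right hW h6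
        omega
    rwa [card_range] at h2
  have h2 : H < (H / Wp w + 1) * Wp w := by
    have h3 := Nat.div_add_mod' H (Wp w)
    have h4 := Nat.mod_lt H hW
    rw [add_mul, one_mul]
    omega
  have h3 : H ≤ ((AW w N H).card + 1) * Wp w := h2.le.trans (Nat.mul_le_mul_right _ (by omega))
  exact_mod_cast h3

/-- **RAV1** -/
theorem rav1 (C η : ℝ) (hC : 0 ≤ C) (hη : 0 < η) : ∃ w₀ : ℕ, 2 ≤ w₀ ∧ ∀ w : ℕ, w₀ ≤ w → ∀ᶠ N : ℕ in atTop, ∀ H y : ℕ,
    Real.log N ≤ H → H ≤ N →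
    ∑ t ∈ AW w N H, (∏ p ∈ (pz y).filter (fun p => w < p ∧ p ∣ N + t), (1 + C / (p : ℝ)) - 1) ≤ η * (AW w N H).card ∧
    ∀ s ∈ AW w N H, ∑ t ∈ (AW w N H).erase s,
      (∏ p ∈ (pz y).filter (fun p => w < p ∧ (p : ℤ) ∣ (s : ℤ) - t), (1 + C / (p : ℝ)) - 1) ≤ η * (AW w N H).card := by
  classical
  refine ⟨2 + ⌈C⌉₊ + ⌈32 * C / η⌉₊, by omega, fun w hw => ?_⟩
  have hwc1 : ⌈C⌉₊ ≤ w := by omega
  have hwc2 : ⌈32 * C / η⌉₊ ≤ w := by omega
  have hwr1 : C ≤ w := (Nat.le_ceil _).trans (Nat.cast_le.2 hwc1)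
  have hwr2 : 32 * C / η ≤ w := (Nat.le_ceil _).trans (Nat.cast_le.2 hwc2)
  have hw0 : (0 : ℝ) < w := by exact_mod_cast (by omega : 0 < w)
  have hW := Wp_pos w
  have hW0 : (0 : ℝ) < Wp w := by exact_mod_cast hW
  have hCw : 2 * (C / w) ≤ η / 16 := by
    rw [div_le_iff₀ hη] at hwr2
    have h1 : C / w ≤ η / 32 := by
      rw [div_le_iff₀ hw0]
      linarith
    linarith
  -- conditions on `H`
  obtain ⟨ζ, hζ⟩ : ∃ ζ, ζ = min 1 (η / 4) := ⟨_, rfl⟩
  have hζ0 : 0 < ζ := by rw [hζ]; exact lt_min one_pos (by positivity)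
  have hζ1 : ζ ≤ 1 := by rw [hζ]; exact min_le_left _ _
  have hζ2 : ζ ≤ η / 4 := by rw [hζ]; exact min_le_right _ _
  have hexp : ∀ᶠ H : ℕ in atTop, Real.exp (2 * C / Real.log H) ≤ 1 + ζ := by
    have h1 : Tendsto (fun H : ℕ => Real.exp (2 * C / Real.log H)) atTop (nhds (Real.exp 0)) := by
      refine (Real.continuous_exp.tendsto 0).comp ?_
      exact Tendsto.div_atTop tendsto_const_nhds (Real.tendsto_log_atTop.comp tendsto_natCast_atTop_atTop)
    rw [Real.exp_zero] at h1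
    exact h1.eventually_le_const (by linarith)
  have hsm := prod_small C hC (η / (16 * Wp w)) (by positivity)
  obtain ⟨H₀, hH₀⟩ := eventually_atTop.1 ((hexp.and hsm).and (eventually_ge_atTop (max 3 (2 * Wp w))))
  have hlogN : ∀ᶠ N : ℕ in atTop, (H₀ : ℝ) ≤ Real.log N :=
    (Real.tendsto_log_atTop.comp tendsto_natCast_atTop_atTop).eventually_ge_atTop _
  filter_upwards [hlogN] with N hN H y hlog hHN
  have hHH : H₀ ≤ H := by exact_mod_cast hN.trans hlog
  obtain ⟨⟨hE, hP⟩, hH2⟩ := hH₀ H hHH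
  have hH3 : 3 ≤ H := (le_max_left _ _).trans hH2
  have hHW : 2 * Wp w ≤ H := (le_max_right _ _).trans hH2
  have hH0 : (0 : ℝ) < H := by exact_mod_cast (by omega : 0 < H)
  have hcard := card_AW w N H
  have hcW : (2 : ℝ) ≤ H / Wp w := by
    rw [le_div_iff₀ hW0]
    exact_mod_cast hHW
  have hc1 : (1 : ℝ) ≤ (AW w N H).card := by linarith
  have hHc : (H : ℝ) / Wp w ≤ 2 * (AW w N H).card := by linarith
  have hone : ∀ p : ℕ, (1 : ℝ) ≤ 1 + C / (p : ℝ) := fun p => by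
    have : 0 ≤ C / (p : ℝ) := by positivity
    linarith
  -- the main bound
  have hmain : ∀ a : ℤ, (∀ t ∈ AW w N H, (Wp w : ℤ) ∣ (t : ℤ) + a) →
      ∑ t ∈ AW w N H, (∏ p ∈ (pz H).filter (fun p => w < p ∧ (p : ℤ) ∣ (t : ℤ) + a), (1 + C / (p : ℝ)) - 1) ≤
        η / 4 * (AW w N H).card := by
    intro a ha
    refine (sumA C hC a w N H ha).trans ?_
    have h1 := (prod_sq C hC w H (by omega) hwr1).trans hCw
    have h2 : (H : ℝ) / Wp w * (∏ p ∈ (pz H).filter (fun p => w < p), (1 + C / (p : ℝ) ^ 2) - 1) ≤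
        H / Wp w * (η / 16) := mul_le_mul_of_nonneg_left h1 (by positivity)
    have h3 : H / Wp w * (η / 16) ≤ 2 * (AW w N H).card * (η / 16) :=
      mul_le_mul_of_nonneg_right hHc (by positivity)
    have h4 : η / (16 * Wp w) * H = H / Wp w * (η / 16) := by field_simp
    rw [h4] at hP
    linarith
  constructor
  · have h1 : ∀ t ∈ AW w N H, ∏ p ∈ (pz y).filter (fun p => w < p ∧ p ∣ N + t), (1 + C / (p : ℝ)) - 1 ≤
        2 * (∏ p ∈ (pz H).filter (fun p => w < p ∧ (p : ℤ) ∣ (t : ℤ) + N), (1 + C / (p : ℝ)) - 1) + η / 4 := by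
      intro t ht
      have htH : t ≤ H := (mem_Icc.1 (mem_filter.1 ht).1).2
      have h2 := big_part C hC w y N H t hH3 hHN hlog htH
      have h3 : (pz H).filter (fun p => w < p ∧ (p : ℤ) ∣ (t : ℤ) + N) =
          (pz H).filter (fun p => w < p ∧ p ∣ N + t) := by
        refine filter_congr fun p _ => ?_
        have : ((t : ℤ) + N) = ((N + t : ℕ) : ℤ) := by push_cast; ring
        rw [this, Int.natCast_dvd_natCast]
      rw [h3]
      obtain ⟨X, hX⟩ : ∃ X, X = ∏ p ∈ (pz H).filter (fun p => w < p ∧ p ∣ N + t), (1 + C / (p : ℝ)) := ⟨_, rfl⟩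
      rw [← hX] at h2 ⊢
      have hX1 : 1 ≤ X := by
        rw [hX]
        calc (1 : ℝ) = ∏ _p ∈ (pz H).filter (fun p => w < p ∧ p ∣ N + t), (1 : ℝ) := by rw [prod_const_one]
          _ ≤ _ := prod_le_prod (fun _ _ => zero_le_one) fun p _ => hone p
      have h4 : Real.exp (2 * C / Real.log H) * X ≤ (1 + ζ) * X := mul_le_mul_of_nonneg_right hE (by linarith)
      nlinarith [mul_nonneg (sub_nonneg.2 hζ1) (sub_nonneg.2 hX1)]
    refine (sum_le_sum h1).trans ?_
    rw [sum_add_distrib, ← mul_sum, sum_const, nsmul_eq_mul]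
    have h2 := hmain (N : ℤ) fun t ht => by
      have h3 := (mem_filter.1 ht).2
      have : ((t : ℤ) + N) = ((N + t : ℕ) : ℤ) := by push_cast; ring
      rw [this, Int.natCast_dvd_natCast]
      exact h3
    nlinarith
  · intro s hs
    have h2 := hmain (-(s : ℤ)) fun t ht => by
      have h3 : Wp w ∣ N + t := (mem_filter.1 ht).2
      have h4 : Wp w ∣ N + s := (mem_filter.1 hs).2
      have : ((t : ℤ) + -s) = ((N + t : ℕ) : ℤ) - ((N + s : ℕ) : ℤ) := by push_cast; ring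
      rw [this]
      exact dvd_sub (Int.natCast_dvd_natCast.2 h3) (Int.natCast_dvd_natCast.2 h4)
    have h3 : ∀ t ∈ (AW w N H).erase s,
        ∏ p ∈ (pz y).filter (fun p => w < p ∧ (p : ℤ) ∣ (s : ℤ) - t), (1 + C / (p : ℝ)) - 1 ≤
        ∏ p ∈ (pz H).filter (fun p => w < p ∧ (p : ℤ) ∣ (t : ℤ) + -s), (1 + C / (p : ℝ)) - 1 := by
      intro t ht
      refine sub_le_sub_right ?_ 1
      refine prod_le_prod_of_subset_of_one_le ?_ (fun p _ => by positivity) fun p _ _ => hone p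
      intro p hp
      rw [mem_filter, mem_pz] at hp
      rw [mem_filter, mem_pz]
      have htH := mem_Icc.1 (mem_filter.1 (mem_of_mem_erase ht)).1
      have hsH := mem_Icc.1 (mem_filter.1 hs).1
      have hne : s ≠ t := (ne_of_mem_erase ht).symm
      have h4 : (p : ℤ) ∣ (t : ℤ) + -s := by
        have : (t : ℤ) + -s = -((s : ℤ) - t) := by ring
        rw [this]
        exact (dvd_neg).2 hp.2.2
      refine ⟨⟨?_, hp.1.2⟩, hp.2.1, h4⟩
      have h5 : (s : ℤ) - t ≠ 0 := by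
        intro h
        exact hne (by exact_mod_cast (sub_eq_zero.1 h))
      have h6 := Int.le_of_dvd (abs_pos.2 h5) ((dvd_abs _ _).2 hp.2.2)
      have h7 : |(s : ℤ) - t| ≤ H := by
        rw [abs_le]
        constructor <;> omega
      exact_mod_cast h6.trans h7
    refine (sum_le_sum h3).trans ?_
    refine le_trans (sum_le_sum_of_subset_of_nonneg (erase_subset _ _) fun t _ _ => ?_) (h2.trans ?_)
    · have : ∏ _p ∈ (pz H).filter (fun p => w < p ∧ (p : ℤ) ∣ (t : ℤ) + -s), (1 : ℝ) ≤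
          ∏ p ∈ (pz H).filter (fun p => w < p ∧ (p : ℤ) ∣ (t : ℤ) + -s), (1 + C / (p : ℝ)) :=
        prod_le_prod (fun _ _ => zero_le_one) fun p _ => hone p
      rw [prod_const_one] at this
      linarith
    · nlinarith

end Pool.Agent.J4.H31.DV
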