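import Mathlib
import Pool.Agent.J4.H38.DV.Defs
import Pool.Agent.TH891.SG.Gal3
import Pool.Agent.J4.H38.SR2.Fix2
import Pool.Agent.J4.H31.DV.Rav1

/-! Project DV (helper38), piece RAV2: the local densities of almost all sets of shifts in `AW w N H`. -/

set_option autoImplicit false

namespace Pool.Agent.J4.H31.DV

open Finset Filter
open Pool.Agent.Y822
open Pool.Agent.J4.H38.SR
open Pool.Agent.J4.H38.SR2
open Pool.Agent.J4.H38.DV
open Pool.Agent.H387R2.Uni (nuT)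
open Pool.Agent.H373R2.T7 (pz Vz mem_pz rhoA PerA lam_fund facA)

/-- `p` divides `N + t` (for `s = t`) or the difference of `s` and `t` -/
def bd (N s t p : ℕ) : Prop := if s = t then p ∣ N + t else (p : ℤ) ∣ (s : ℤ) - t

instance (N s t p : ℕ) : Decidable (bd N s t p) := by unfold bd; infer_instance

/-- the bad large primes of a pair -/
def Bp (N w y s t : ℕ) : Finset ℕ := (pz y).filter (fun p => w < p ∧ bd N s t p)

/-- the bad large primes of a set -/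
def BT (N w y : ℕ) (T : Finset ℕ) : Finset ℕ :=
  (pz y).filter (fun p => w < p ∧ ∃ s ∈ T, ∃ t ∈ T, bd N s t p)

lemma pow_up (x : ℝ) (h0 : 0 ≤ x) (h1 : x ≤ 1) (j : ℕ) :
    (1 - x) ^ j ≤ 1 - j * x + (j : ℝ) ^ 2 * x ^ 2 / 2 := by
  induction j with
  | zero => simp
  | succ j ih =>
    rw [pow_succ]
    have h2 : (1 - x) ^ j * (1 - x) ≤ (1 - j * x + (j : ℝ) ^ 2 * x ^ 2 / 2) * (1 - x) :=
      mul_le_mul_of_nonneg_right ih (by linarith)
    refine h2.trans ?_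
    push_cast
    have h3 : 0 ≤ (j : ℝ) ^ 2 * x ^ 3 := by positivity
    nlinarith [sq_nonneg x]

lemma one_sub_sum_le_prod {ι : Type*} (S : Finset ι) (a : ι → ℝ) (h : ∀ i ∈ S, 0 ≤ a i ∧ a i ≤ 1) :
    1 - ∑ i ∈ S, a i ≤ ∏ i ∈ S, (1 - a i) := by
  classical
  induction S using Finset.induction_on with
  | empty => simp
  | insert i S hi ih =>
    rw [sum_insert hi, prod_insert hi]
    have h1 := ih fun j hj => h j (mem_insert_of_mem hj)
    obtain ⟨h2, h3⟩ := h i (mem_insert_self _ _)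
    have h4 : ∏ j ∈ S, (1 - a j) ≤ 1 :=
      prod_le_one (fun j hj => by have := (h j (mem_insert_of_mem hj)).2; linarith)
        fun j hj => by have := (h j (mem_insert_of_mem hj)).1; linarith
    have h5 : a i * ∏ j ∈ S, (1 - a j) ≤ a i * 1 := mul_le_mul_of_nonneg_left h4 h2
    linarith

/-- local densities: small primes -/
lemma rho_small {w N H : ℕ} {T : Finset ℕ} (hT : T ⊆ AW w N H) {p : ℕ} (hp : p.Prime) (hpw : p ≤ w) :
    rhoA (QW (sh N T)) p = 0 := by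
  classical
  unfold rhoA
  rw [card_eq_zero, filter_eq_empty_iff]
  rintro r _ ⟨h1, v, hv, h2⟩
  unfold sh at hv
  obtain ⟨t, ht, rfl⟩ := mem_image.1 hv
  have h3 := (mem_filter.1 (hT ht)).2
  have h4 : p ∣ N + t := (dvd_prod_of_mem (fun p => p) (mem_pz.2 ⟨hpw, hp⟩)).trans h3
  apply h1
  rw [add_comm] at h4
  exact (Nat.ModEq.dvd_iff h2 (dvd_refl p)).1 h4

/-- local densities: large primes -/
lemma rho_large (N : ℕ) (T : Finset ℕ) {p : ℕ} (hp : p.Prime) :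
    rhoA (QW (sh N T)) p ≤ T.card ∧
      ((∀ s ∈ T, ∀ t ∈ T, ¬ bd N s t p) → rhoA (QW (sh N T)) p = T.card) := by
  classical
  have h1 := rho_W (sh N T) p hp
  have h2 : nuT (pat (sh N T)) p ≤ T.card + 1 := by
    refine card_image_le.trans ?_
    refine (card_insert_le _ _).trans ?_
    rw [card_sh]
  refine ⟨by omega, fun h => ?_⟩
  have h3 := (nuT_pat_sh (N := N) hp.pos T).2 fun d hd hdd => by
    have := h d hd d hd
    unfold bd at this
    rw [if_pos rfl] at this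
    exact this hdd
  have h4 : nuT T p = T.card := by
    unfold nuT
    refine card_image_of_injOn ?_
    intro s hs t ht hst
    by_contra hne
    have := h s hs t ht
    unfold bd at this
    rw [if_neg hne] at this
    apply this
    have h5 : s ≡ t [MOD p] := hst
    exact (Nat.modEq_iff_dvd.1 h5.symm)
  omega

/-- local inequalities -/
lemma loc {k j ρ p : ℕ} (hj : j ≤ k) (hρ : ρ ≤ j) (hp : 2 * k + 2 ≤ p) :
    0 ≤ 1 - 1 / ((p : ℝ) - 1) ∧
    (1 - 8 * (k : ℝ) ^ 2 * (1 / (p : ℝ) ^ 2)) * (1 - 1 / ((p : ℝ) - 1)) ^ j ≤ 1 - (ρ : ℝ) / ((p : ℝ) - 1) ∧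
    (ρ = j → 1 - (ρ : ℝ) / ((p : ℝ) - 1) ≤ (1 - 1 / ((p : ℝ) - 1)) ^ j) ∧
    1 ≤ (1 + 2 * (k : ℝ) / p) * (1 - 1 / ((p : ℝ) - 1)) ^ j := by
  have hk0 : (0 : ℝ) ≤ k := Nat.cast_nonneg k
  have hj0 : (0 : ℝ) ≤ j := Nat.cast_nonneg j
  have hjk : (j : ℝ) ≤ k := by exact_mod_cast hj
  have hρj : (ρ : ℝ) ≤ j := by exact_mod_cast hρ
  have hp2 : 2 * (k : ℝ) + 2 ≤ p := by exact_mod_cast hp
  have hp1 : 0 < (p : ℝ) - 1 := by linarith
  have hp0 : (0 : ℝ) < p := by linarith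
  obtain ⟨x, hx⟩ : ∃ x, x = 1 / ((p : ℝ) - 1) := ⟨_, rfl⟩
  have hx0 : 0 < x := by rw [hx]; positivity
  have hxk : (2 * k + 1) * x ≤ 1 := by
    rw [hx, mul_one_div, div_le_one hp1]
    linarith
  have hx1 : x ≤ 1 := by nlinarith [mul_nonneg hk0 hx0.le]
  have e1 : ∀ r : ℝ, r / ((p : ℝ) - 1) = r * x := fun r => by rw [hx]; ring
  rw [← hx, e1]
  have hjx : (j : ℝ) * x ≤ k * x := mul_le_mul_of_nonneg_right hjk hx0.le
  have hρx : (ρ : ℝ) * x ≤ j * x := mul_le_mul_of_nonneg_right hρj hx0.le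
  have hb : 1 - (j : ℝ) * x ≤ (1 - x) ^ j := by
    have := one_add_mul_le_pow (a := -x) (by linarith) j
    have h2 : 1 + (j : ℝ) * -x = 1 - j * x := by ring
    have h3 : (1 + -x) = 1 - x := by ring
    rw [h2, h3] at this
    exact this
  have hpos : 0 ≤ (1 - x) ^ j := pow_nonneg (by linarith) j
  refine ⟨by linarith, ?_, ?_, ?_⟩
  · have h1 : 2 * (k : ℝ) ^ 2 * x ^ 2 ≤ 8 * (k : ℝ) ^ 2 * (1 / (p : ℝ) ^ 2) := by
      have h2 : x ≤ 2 * (1 / p) := by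
        rw [hx, mul_one_div, div_le_div_iff₀ hp1 hp0]
        linarith
      have h3 : x ^ 2 ≤ 4 * (1 / (p : ℝ) ^ 2) := by
        have := pow_le_pow_left₀ hx0.le h2 2
        calc x ^ 2 ≤ (2 * (1 / (p : ℝ))) ^ 2 := this
          _ = _ := by ring
      nlinarith [sq_nonneg (k : ℝ)]
    have h2 : (1 - 8 * (k : ℝ) ^ 2 * (1 / (p : ℝ) ^ 2)) * (1 - x) ^ j ≤
        (1 - 2 * (k : ℝ) ^ 2 * x ^ 2) * (1 - x) ^ j := mul_le_mul_of_nonneg_right (by linarith) hpos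
    refine h2.trans ?_
    have h3 := pow_up x hx0.le hx1 j
    have h4 : 0 ≤ 1 - 2 * (k : ℝ) ^ 2 * x ^ 2 := by
      have h5 : (k : ℝ) * x ≤ 1 / 2 := by linarith
      have h6 : 0 ≤ (k : ℝ) * x := by positivity
      nlinarith
    have h5 := mul_le_mul_of_nonneg_left h3 h4
    refine h5.trans ?_
    have h6 : (k : ℝ) * x ≤ 1 / 2 := by linarith
    have h7 : (j : ℝ) ^ 2 * x ^ 2 ≤ (k : ℝ) ^ 2 * x ^ 2 := by
      have h8 : (j : ℝ) ^ 2 ≤ (k : ℝ) ^ 2 := pow_le_pow_left₀ hj0 hjk 2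
      exact mul_le_mul_of_nonneg_right h8 (sq_nonneg x)
    have h8 : 0 ≤ (k : ℝ) ^ 2 * x ^ 2 := by positivity
    have h9 : 0 ≤ (j : ℝ) ^ 2 * x ^ 2 := by positivity
    have h10 : (j : ℝ) * x ≤ 1 / 2 := by linarith
    nlinarith [mul_nonneg h8 h9, mul_le_mul_of_nonneg_left h10 h8]
  · rintro rfl
    exact hb
  · have h1 : (1 + 2 * (k : ℝ) / p) * (1 - j * x) ≤ (1 + 2 * (k : ℝ) / p) * (1 - x) ^ j :=
      mul_le_mul_of_nonneg_left hb (by positivity)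
    refine le_trans ?_ h1
    have h2 : (1 + 2 * (k : ℝ) / p) * (1 - k * x) ≤ (1 + 2 * (k : ℝ) / p) * (1 - j * x) :=
      mul_le_mul_of_nonneg_left (by linarith) (by positivity)
    refine le_trans ?_ h2
    rw [hx]
    have h3 : (1 + 2 * (k : ℝ) / p) * (1 - k * (1 / ((p : ℝ) - 1))) =
        ((p : ℝ) + 2 * k) * ((p : ℝ) - 1 - k) / (p * ((p : ℝ) - 1)) := by
      field_simp
    rw [h3, le_div_iff₀ (by positivity)]
    nlinarith

/-- the two-sided bound for one set of shifts -/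
lemma Pq_GG {k w N H y : ℕ} (hw : 2 * k + 2 ≤ w) (hkw : 8 * (k : ℝ) ^ 2 ≤ w) {T : Finset ℕ} (hT : T ⊆ AW w N H)
    (hTk : T.card ≤ k) :
    (1 - 8 * (k : ℝ) ^ 2 / w) * GG w y ^ T.card ≤ Pq (QW (sh N T)) y ∧
    Pq (QW (sh N T)) y ≤ GG w y ^ T.card * ∏ p ∈ BT N w y T, (1 + 2 * (k : ℝ) / p) ∧ 0 ≤ GG w y := by
  classical
  obtain ⟨j, hj⟩ : ∃ j, j = T.card := ⟨_, rfl⟩
  rw [← hj] at hTk ⊢
  have hk0 : (0 : ℝ) ≤ k := Nat.cast_nonneg k
  have hw0 : (0 : ℝ) < w := by exact_mod_cast (by omega : 0 < w)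
  have hPq : Pq (QW (sh N T)) y = ∏ p ∈ (pz y).filter (fun p => w < p),
      (1 - (rhoA (QW (sh N T)) p : ℝ) / ((p : ℝ) - 1)) := by
    unfold Pq
    rw [prod_filter]
    refine prod_congr rfl fun p hp => ?_
    split_ifs with h
    · rfl
    · rw [rho_small hT (mem_pz.1 hp).2 (not_lt.1 h)]
      simp
  have hmem : ∀ p ∈ (pz y).filter (fun p => w < p), p.Prime ∧ w < p ∧ 2 * k + 2 ≤ p := by
    intro p hp
    rw [mem_filter, mem_pz] at hp
    exact ⟨hp.1.2, hp.2, by omega⟩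
  have hloc := fun p (hp : p ∈ (pz y).filter (fun p => w < p)) =>
    loc (p := p) (k := k) (j := j) (ρ := rhoA (QW (sh N T)) p) hTk
      (by rw [hj]; exact (rho_large N T (hmem p hp).1).1) (hmem p hp).2.2
  have hGG0 : 0 ≤ GG w y := prod_nonneg fun p hp => (hloc p hp).1
  have hGGj : GG w y ^ j = ∏ p ∈ (pz y).filter (fun p => w < p), (1 - 1 / ((p : ℝ) - 1)) ^ j := by
    unfold GG
    rw [prod_pow]
  have hsmall : ∀ p ∈ (pz y).filter (fun p => w < p), 0 ≤ 8 * (k : ℝ) ^ 2 * (1 / (p : ℝ) ^ 2) ∧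
      8 * (k : ℝ) ^ 2 * (1 / (p : ℝ) ^ 2) ≤ 1 := by
    intro p hp
    obtain ⟨h1, h2, h3⟩ := hmem p hp
    refine ⟨by positivity, ?_⟩
    have h4 : (w : ℝ) ≤ p := by exact_mod_cast h2.le
    have h5 : (1 : ℝ) ≤ p := by exact_mod_cast (by omega : 1 ≤ p)
    rw [mul_one_div, div_le_one (by positivity)]
    nlinarith
  refine ⟨?_, ?_, hGG0⟩
  · have h1 : 1 - 8 * (k : ℝ) ^ 2 / w ≤
        ∏ p ∈ (pz y).filter (fun p => w < p), (1 - 8 * (k : ℝ) ^ 2 * (1 / (p : ℝ) ^ 2)) := by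
      refine le_trans ?_ (one_sub_sum_le_prod _ _ hsmall)
      rw [← mul_sum]
      have h2 := inv_sq_gt (y := w) (by omega) ((pz y).filter (fun p => w < p)) (fun p hp => (hmem p hp).2.1)
      have h3 := mul_le_mul_of_nonneg_left h2 (by positivity : 0 ≤ 8 * (k : ℝ) ^ 2)
      have h4 : 8 * (k : ℝ) ^ 2 * (1 / w) = 8 * (k : ℝ) ^ 2 / w := by ring
      rw [h4] at h3
      linarith
    refine (mul_le_mul_of_nonneg_right h1 (pow_nonneg hGG0 j)).trans ?_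
    rw [hGGj, hPq, ← prod_mul_distrib]
    refine prod_le_prod (fun p hp => ?_) fun p hp => (hloc p hp).2.1
    exact mul_nonneg (by have := (hsmall p hp).2; linarith) (pow_nonneg (hloc p hp).1 j)
  · have h1 : ∏ p ∈ BT N w y T, (1 + 2 * (k : ℝ) / p) =
        ∏ p ∈ (pz y).filter (fun p => w < p), (if ∃ s ∈ T, ∃ t ∈ T, bd N s t p then 1 + 2 * (k : ℝ) / p else 1) := by
      unfold BT
      rw [← prod_filter, filter_filter]
    rw [h1, hPq, hGGj, ← prod_mul_distrib]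
    refine prod_le_prod (fun p hp => (facA _ p (hmem p hp).1).1) fun p hp => ?_
    split_ifs with h
    · have h2 := (facA (QW (sh N T)) p (hmem p hp).1).2
      have h3 := (hloc p hp).2.2.2
      linarith
    · rw [mul_one]
      refine (hloc p hp).2.2.1 ?_
      rw [hj]
      refine (rho_large N T (hmem p hp).1).2 fun s hs t ht hb => h ⟨s, hs, t, ht, hb⟩

/-- from the bad primes of the set to those of the pairs -/
lemma BT_pairs {k N w y : ℕ} {T : Finset ℕ} (hTk : T.card ≤ k) :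
    ∏ p ∈ BT N w y T, (1 + 2 * (k : ℝ) / p) - 1 ≤
      ∑ s ∈ T, ∑ t ∈ T, (∏ p ∈ Bp N w y s t, (1 + (1 + 2 * (k : ℝ)) ^ (k * k) / p) - 1) := by
  classical
  have hk0 : (0 : ℝ) ≤ k := Nat.cast_nonneg k
  have hC1 : (1 : ℝ) ≤ (1 + 2 * (k : ℝ)) ^ (k * k) := one_le_pow₀ (by linarith)
  have hge : ∀ s t, 0 ≤ ∏ p ∈ Bp N w y s t, (1 + (1 + 2 * (k : ℝ)) ^ (k * k) / p) - 1 := by
    intro s t
    have : ∏ _p ∈ Bp N w y s t, (1 : ℝ) ≤ ∏ p ∈ Bp N w y s t, (1 + (1 + 2 * (k : ℝ)) ^ (k * k) / p) := by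
      refine prod_le_prod (fun _ _ => zero_le_one) fun p _ => ?_
      have : 0 ≤ (1 + 2 * (k : ℝ)) ^ (k * k) / p := by positivity
      linarith
    rw [prod_const_one] at this
    linarith
  rcases T.eq_empty_or_nonempty with rfl | hne
  · have : BT N w y ∅ = ∅ := by
      unfold BT
      rw [filter_eq_empty_iff]
      rintro p _ ⟨_, s, hs, _⟩
      exact absurd hs (notMem_empty s)
    rw [this]
    simp
  have hneP : (T ×ˢ T).Nonempty := hne.product hne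
  obtain ⟨z, hz, hmax⟩ := exists_max_image (T ×ˢ T)
    (fun z => ∏ p ∈ Bp N w y z.1 z.2, (1 + 2 * (k : ℝ) / p)) hneP
  have h1 : ∏ p ∈ BT N w y T, (1 + 2 * (k : ℝ) / p) ≤
      ∏ z ∈ T ×ˢ T, ∏ p ∈ Bp N w y z.1 z.2, (1 + 2 * (k : ℝ) / p) := by
    have e1 : ∏ z ∈ T ×ˢ T, ∏ p ∈ Bp N w y z.1 z.2, (1 + 2 * (k : ℝ) / p) =
        ∏ p ∈ pz y, ∏ z ∈ T ×ˢ T, (if w < p ∧ bd N z.1 z.2 p then 1 + 2 * (k : ℝ) / p else 1) := by
      rw [Finset.prod_comm]
      refine prod_congr rfl fun z _ => ?_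
      unfold Bp
      rw [prod_filter]
    rw [e1]
    unfold BT
    rw [prod_filter]
    refine prod_le_prod (fun p _ => ?_) fun p _ => ?_
    · split_ifs
      · positivity
      · exact zero_le_one
    · have hone : ∀ z ∈ T ×ˢ T, (1 : ℝ) ≤ (if w < p ∧ bd N z.1 z.2 p then 1 + 2 * (k : ℝ) / p else 1) := by
        intro z _
        split_ifs
        · have : 0 ≤ 2 * (k : ℝ) / p := by positivity
          linarith
        · exact le_rfl
      split_ifs with h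
      · obtain ⟨hwp, s, hs, t, ht, hb⟩ := h
        have hm : (s, t) ∈ T ×ˢ T := mem_product.2 ⟨hs, ht⟩
        rw [← mul_prod_erase (T ×ˢ T) _ hm]
        simp only
        rw [if_pos ⟨hwp, hb⟩]
        refine le_mul_of_one_le_right (by positivity) ?_
        calc (1 : ℝ) = ∏ _z ∈ (T ×ˢ T).erase (s, t), (1 : ℝ) := by rw [prod_const_one]
          _ ≤ _ := prod_le_prod (fun _ _ => zero_le_one) fun z hz => hone z (mem_of_mem_erase hz)
      · calc (1 : ℝ) = ∏ _z ∈ T ×ˢ T, (1 : ℝ) := by rw [prod_const_one]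
          _ ≤ _ := prod_le_prod (fun _ _ => zero_le_one) hone
  have hM1 : 1 ≤ ∏ p ∈ Bp N w y z.1 z.2, (1 + 2 * (k : ℝ) / p) := by
    calc (1 : ℝ) = ∏ _p ∈ Bp N w y z.1 z.2, (1 : ℝ) := by rw [prod_const_one]
      _ ≤ _ := prod_le_prod (fun _ _ => zero_le_one) fun p _ => by
        have : 0 ≤ 2 * (k : ℝ) / p := by positivity
        linarith
  have h2 : ∏ z ∈ T ×ˢ T, ∏ p ∈ Bp N w y z.1 z.2, (1 + 2 * (k : ℝ) / p) ≤
      (∏ p ∈ Bp N w y z.1 z.2, (1 + 2 * (k : ℝ) / p)) ^ (k * k) := by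
    refine (prod_le_prod (fun x _ => prod_nonneg fun p _ => by positivity) hmax).trans ?_
    rw [prod_const, card_product]
    exact pow_le_pow_right₀ hM1 (Nat.mul_le_mul hTk hTk)
  have h3 : (∏ p ∈ Bp N w y z.1 z.2, (1 + 2 * (k : ℝ) / p)) ^ (k * k) ≤
      ∏ p ∈ Bp N w y z.1 z.2, (1 + (1 + 2 * (k : ℝ)) ^ (k * k) / p) := by
    rw [← prod_pow]
    refine prod_le_prod (fun p _ => by positivity) fun p hp => ?_
    have hp1 : (1 : ℝ) ≤ p := by
      have := (mem_pz.1 (mem_filter.1 hp).1).2.one_lt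
      exact_mod_cast this.le
    obtain ⟨u, hu⟩ : ∃ u, u = 1 / (p : ℝ) := ⟨_, rfl⟩
    have hu0 : 0 ≤ u := by rw [hu]; positivity
    have hu1 : u ≤ 1 := by rw [hu, div_le_one (by linarith)]; exact hp1
    have e1 : 2 * (k : ℝ) / p = u * (2 * k) := by rw [hu]; ring
    have e2 : (1 + 2 * (k : ℝ)) ^ (k * k) / p = u * (1 + 2 * (k : ℝ)) ^ (k * k) := by rw [hu]; ring
    rw [e1, e2]
    have hgen : ∀ m : ℕ, (1 + u * (2 * (k : ℝ))) ^ m ≤ 1 + u * ((1 + 2 * (k : ℝ)) ^ m - 1) := by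
      intro m
      induction m with
      | zero => simp
      | succ m ih =>
        rw [pow_succ]
        have g1 := mul_le_mul_of_nonneg_right ih (by positivity : 0 ≤ 1 + u * (2 * (k : ℝ)))
        refine g1.trans ?_
        rw [pow_succ]
        have g2 : (1 : ℝ) ≤ (1 + 2 * (k : ℝ)) ^ m := one_le_pow₀ (by linarith)
        have g3 : 0 ≤ u * ((1 - u) * (2 * k * ((1 + 2 * (k : ℝ)) ^ m - 1))) := by
          have : 0 ≤ 1 - u := by linarith
          have : 0 ≤ (1 + 2 * (k : ℝ)) ^ m - 1 := by linarith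
          positivity
        nlinarith
    refine (hgen (k * k)).trans ?_
    nlinarith
  have h4 := mem_product.1 hz
  calc _ ≤ ∏ p ∈ Bp N w y z.1 z.2, (1 + (1 + 2 * (k : ℝ)) ^ (k * k) / p) - 1 := by linarith
    _ ≤ ∑ t ∈ T, (∏ p ∈ Bp N w y z.1 t, (1 + (1 + 2 * (k : ℝ)) ^ (k * k) / p) - 1) :=
        single_le_sum (f := fun t => ∏ p ∈ Bp N w y z.1 t, (1 + (1 + 2 * (k : ℝ)) ^ (k * k) / p) - 1)
          (fun t _ => hge z.1 t) h4.2
    _ ≤ _ := single_le_sum (f := fun s => ∑ t ∈ T, (∏ p ∈ Bp N w y s t, (1 + (1 + 2 * (k : ℝ)) ^ (k * k) / p) - 1))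
          (fun s _ => sum_nonneg fun t _ => hge s t) h4.1

/-- the number of the `j`-sets containing a given set -/
lemma card_super (A S : Finset ℕ) (j : ℕ) :
    (((A.powersetCard j).filter (fun T => S ⊆ T)).card : ℝ) * (A.card : ℝ) ^ S.card ≤ (A.card : ℝ) ^ j := by
  classical
  by_cases hj : S.card ≤ j
  · have h1 : ((A.powersetCard j).filter (fun T => S ⊆ T)).card ≤ (A.powersetCard (j - S.card)).card := by
      refine card_le_card_of_injOn (fun T => T \ S) (fun T hT => ?_) fun T hT T' hT' h => ?_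
      · rw [mem_coe, mem_filter, mem_powersetCard] at hT
        rw [mem_coe, mem_powersetCard]
        refine ⟨sdiff_subset.trans hT.1.1, ?_⟩
        rw [card_sdiff_of_subset hT.2, hT.1.2]
      · rw [mem_coe, mem_filter] at hT hT'
        simp only at h
        rw [← sdiff_union_of_subset hT.2, ← sdiff_union_of_subset hT'.2, h]
    rw [card_powersetCard] at h1
    have h2 := h1.trans (Nat.choose_le_pow A.card (j - S.card))
    have h3 : (((A.powersetCard j).filter (fun T => S ⊆ T)).card : ℝ) ≤ (A.card : ℝ) ^ (j - S.card) := by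
      exact_mod_cast h2
    calc _ ≤ (A.card : ℝ) ^ (j - S.card) * (A.card : ℝ) ^ S.card :=
          mul_le_mul_of_nonneg_right h3 (by positivity)
      _ = _ := by rw [← pow_add, Nat.sub_add_cancel hj]
  · have h1 : (A.powersetCard j).filter (fun T => S ⊆ T) = ∅ := by
      rw [filter_eq_empty_iff]
      intro T hT hST
      rw [mem_powersetCard] at hT
      have := card_le_card hST
      omega
    rw [h1]
    simp

lemma sum_one (A : Finset ℕ) (j : ℕ) (f : ℕ → ℝ) (hf : ∀ t, 0 ≤ f t) :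
    (∑ T ∈ A.powersetCard j, ∑ t ∈ T, f t) * A.card ≤ (A.card : ℝ) ^ j * ∑ t ∈ A, f t := by
  classical
  have h1 : ∑ T ∈ A.powersetCard j, ∑ t ∈ T, f t =
      ∑ t ∈ A, (((A.powersetCard j).filter (fun T => {t} ⊆ T)).card : ℝ) * f t := by
    have h2 : ∀ T ∈ A.powersetCard j, ∑ t ∈ T, f t = ∑ t ∈ A, if {t} ⊆ T then f t else 0 := by
      intro T hT
      rw [← sum_filter]
      refine sum_congr ?_ fun _ _ => rfl
      ext t
      rw [mem_filter, singleton_subset_iff]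
      exact ⟨fun h => ⟨(mem_powersetCard.1 hT).1 h, h⟩, fun h => h.2⟩
    rw [sum_congr rfl h2, sum_comm]
    refine sum_congr rfl fun t _ => ?_
    rw [← sum_filter, sum_const, nsmul_eq_mul]
  rw [h1, sum_mul, mul_sum]
  refine sum_le_sum fun t ht => ?_
  have h2 := card_super A {t} j
  rw [card_singleton, pow_one] at h2
  nlinarith [mul_le_mul_of_nonneg_right h2 (hf t)]

lemma sum_two (A : Finset ℕ) (j : ℕ) (f : ℕ → ℕ → ℝ) (hf : ∀ s t, 0 ≤ f s t) :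
    (∑ T ∈ A.powersetCard j, ∑ s ∈ T, ∑ t ∈ T.erase s, f s t) * (A.card : ℝ) ^ 2 ≤
      (A.card : ℝ) ^ j * ∑ s ∈ A, ∑ t ∈ A.erase s, f s t := by
  classical
  have h1 : ∑ T ∈ A.powersetCard j, ∑ s ∈ T, ∑ t ∈ T.erase s, f s t =
      ∑ s ∈ A, ∑ t ∈ A.erase s, (((A.powersetCard j).filter (fun T => {s, t} ⊆ T)).card : ℝ) * f s t := by
    have h2 : ∀ T ∈ A.powersetCard j, ∑ s ∈ T, ∑ t ∈ T.erase s, f s t =
        ∑ s ∈ A, ∑ t ∈ A.erase s, if {s, t} ⊆ T then f s t else 0 := by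
      intro T hT
      have hTA := (mem_powersetCard.1 hT).1
      have h3 : ∀ s ∈ T, ∑ t ∈ T.erase s, f s t = ∑ t ∈ A.erase s, if {s, t} ⊆ T then f s t else 0 := by
        intro s hs
        rw [← sum_filter]
        refine sum_congr ?_ fun _ _ => rfl
        ext t
        rw [mem_filter, mem_erase, mem_erase, insert_subset_iff, singleton_subset_iff]
        exact ⟨fun h => ⟨⟨h.1, hTA h.2⟩, hs, h.2⟩, fun h => ⟨h.1.1, h.2.2⟩⟩
      rw [sum_congr rfl h3]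
      refine sum_subset hTA fun s _ hs => ?_
      refine sum_eq_zero fun t _ => if_neg fun h => hs ?_
      exact h (mem_insert_self _ _)
    rw [sum_congr rfl h2, sum_comm]
    refine sum_congr rfl fun s _ => ?_
    rw [sum_comm]
    refine sum_congr rfl fun t _ => ?_
    rw [← sum_filter, sum_const, nsmul_eq_mul]
  rw [h1, sum_mul, mul_sum]
  refine sum_le_sum fun s hs => ?_
  rw [sum_mul, mul_sum]
  refine sum_le_sum fun t ht => ?_
  have h2 := card_super A {s, t} j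
  rw [card_pair (ne_of_mem_erase ht).symm] at h2
  nlinarith [mul_le_mul_of_nonneg_right h2 (hf s t)]

/-- **RAV2** from RAV1 -/
theorem rav2_of (rav1 : ∀ (C η : ℝ), 0 ≤ C → 0 < η → ∃ w₀ : ℕ, 2 ≤ w₀ ∧ ∀ w : ℕ, w₀ ≤ w → ∀ᶠ N : ℕ in atTop,
      ∀ H y : ℕ, Real.log N ≤ H → H ≤ N →
      ∑ t ∈ AW w N H, (∏ p ∈ (pz y).filter (fun p => w < p ∧ p ∣ N + t), (1 + C / (p : ℝ)) - 1) ≤
        η * (AW w N H).card ∧
      ∀ s ∈ AW w N H, ∑ t ∈ (AW w N H).erase s,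
        (∏ p ∈ (pz y).filter (fun p => w < p ∧ (p : ℤ) ∣ (s : ℤ) - t), (1 + C / (p : ℝ)) - 1) ≤
          η * (AW w N H).card)
    (k : ℕ) (η : ℝ) (hη : 0 < η) : ∃ w₀ : ℕ, 2 ≤ w₀ ∧ ∀ w : ℕ, w₀ ≤ w → ∀ᶠ N : ℕ in atTop, ∀ H y : ℕ,
    Real.log N ≤ H → H ≤ N → w ≤ y → ∀ j ≤ k,
    ∑ T ∈ (AW w N H).powersetCard j, |Pq (QW (sh N T)) y - GG w y ^ j| ≤ η * (GG w y * (AW w N H).card) ^ j := by
  classical
  have hk0 : (0 : ℝ) ≤ k := Nat.cast_nonneg k
  obtain ⟨C, hC⟩ : ∃ C, C = (1 + 2 * (k : ℝ)) ^ (k * k) := ⟨_, rfl⟩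
  have hC0 : 0 ≤ C := by rw [hC]; positivity
  obtain ⟨w₁, hw₁2, hw₁⟩ := rav1 C (η / 3) hC0 (by positivity)
  refine ⟨w₁ + (2 * k + 2) + ⌈8 * (k : ℝ) ^ 2⌉₊ + ⌈24 * (k : ℝ) ^ 2 / η⌉₊, by omega, fun w hw => ?_⟩
  filter_upwards [hw₁ w (by omega)] with N hN H y hlog hHN hwy j hj
  obtain ⟨hr1, hr2⟩ := hN H y hlog hHN
  have hwc1 : ⌈8 * (k : ℝ) ^ 2⌉₊ ≤ w := by omega
  have hwc2 : ⌈24 * (k : ℝ) ^ 2 / η⌉₊ ≤ w := by omega
  have hwr1 : 8 * (k : ℝ) ^ 2 ≤ w := (Nat.le_ceil _).trans (Nat.cast_le.2 hwc1)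
  have hwr2 : 24 * (k : ℝ) ^ 2 / η ≤ w := (Nat.le_ceil _).trans (Nat.cast_le.2 hwc2)
  have hw0 : (0 : ℝ) < w := by exact_mod_cast (by omega : 0 < w)
  have hwk : 2 * k + 2 ≤ w := by omega
  have hCw : 8 * (k : ℝ) ^ 2 / w ≤ η / 3 := by
    rw [div_le_iff₀ hη] at hwr2
    rw [div_le_iff₀ hw0]
    linarith
  obtain ⟨A, hA⟩ : ∃ A, A = AW w N H := ⟨_, rfl⟩
  rw [← hA] at hr1 hr2 ⊢
  have hge : ∀ s t, 0 ≤ ∏ p ∈ Bp N w y s t, (1 + C / (p : ℝ)) - 1 := by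
    intro s t
    have : ∏ _p ∈ Bp N w y s t, (1 : ℝ) ≤ ∏ p ∈ Bp N w y s t, (1 + C / (p : ℝ)) := by
      refine prod_le_prod (fun _ _ => zero_le_one) fun p _ => ?_
      have : 0 ≤ C / (p : ℝ) := by positivity
      linarith
    rw [prod_const_one] at this
    linarith
  have hG0 : 0 ≤ GG w y := (Pq_GG (k := k) (y := y) hwk hwr1 (empty_subset (AW w N H)) (by simp)).2.2
  have hpt : ∀ T ∈ A.powersetCard j, |Pq (QW (sh N T)) y - GG w y ^ j| ≤ GG w y ^ j * (η / 3 +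
      (∑ t ∈ T, (∏ p ∈ Bp N w y t t, (1 + C / (p : ℝ)) - 1) +
        ∑ s ∈ T, ∑ t ∈ T.erase s, (∏ p ∈ Bp N w y s t, (1 + C / (p : ℝ)) - 1))) := by
    intro T hT
    rw [mem_powersetCard] at hT
    obtain ⟨h1, h2, h3⟩ := Pq_GG (k := k) (y := y) hwk hwr1 (hA ▸ hT.1) (by omega : T.card ≤ k)
    have h4 := BT_pairs (k := k) (N := N) (w := w) (y := y) (T := T) (by omega)
    rw [← hC] at h4
    rw [hT.2] at h1 h2
    have h5 : ∑ s ∈ T, ∑ t ∈ T, (∏ p ∈ Bp N w y s t, (1 + C / (p : ℝ)) - 1) =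
        ∑ t ∈ T, (∏ p ∈ Bp N w y t t, (1 + C / (p : ℝ)) - 1) +
        ∑ s ∈ T, ∑ t ∈ T.erase s, (∏ p ∈ Bp N w y s t, (1 + C / (p : ℝ)) - 1) := by
      rw [← sum_add_distrib]
      refine sum_congr rfl fun s hs => ?_
      rw [add_sum_erase T (fun t => ∏ p ∈ Bp N w y s t, (1 + C / (p : ℝ)) - 1) hs]
    rw [h5] at h4
    have hGj : 0 ≤ GG w y ^ j := pow_nonneg hG0 j
    obtain ⟨S, hS⟩ : ∃ S, S = ∑ t ∈ T, (∏ p ∈ Bp N w y t t, (1 + C / (p : ℝ)) - 1) +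
        ∑ s ∈ T, ∑ t ∈ T.erase s, (∏ p ∈ Bp N w y s t, (1 + C / (p : ℝ)) - 1) := ⟨_, rfl⟩
    have hS0 : 0 ≤ S := by
      rw [hS]
      exact add_nonneg (sum_nonneg fun t _ => hge t t) (sum_nonneg fun s _ => sum_nonneg fun t _ => hge s t)
    rw [← hS] at h4 ⊢
    rw [abs_le]
    constructor
    · have h6 : 8 * (k : ℝ) ^ 2 / w * GG w y ^ j ≤ η / 3 * GG w y ^ j := mul_le_mul_of_nonneg_right hCw hGj
      have h7 : 0 ≤ GG w y ^ j * S := mul_nonneg hGj hS0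
      nlinarith
    · have h6 : GG w y ^ j * ∏ p ∈ BT N w y T, (1 + 2 * (k : ℝ) / p) ≤ GG w y ^ j * (1 + S) :=
        mul_le_mul_of_nonneg_left (by linarith) hGj
      have h7 : 0 ≤ GG w y ^ j * (η / 3) := by positivity
      nlinarith
  refine (sum_le_sum hpt).trans ?_
  rw [← mul_sum, mul_pow, mul_left_comm]
  refine mul_le_mul_of_nonneg_left ?_ (pow_nonneg hG0 j)
  rw [sum_add_distrib, sum_add_distrib, sum_const, nsmul_eq_mul]
  have hcard : (((A.powersetCard j).card : ℕ) : ℝ) ≤ (A.card : ℝ) ^ j := by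
    rw [card_powersetCard]
    exact_mod_cast Nat.choose_le_pow A.card j
  have g1 := sum_one A j (fun t => ∏ p ∈ Bp N w y t t, (1 + C / (p : ℝ)) - 1) (fun t => hge t t)
  have g2 := sum_two A j (fun s t => ∏ p ∈ Bp N w y s t, (1 + C / (p : ℝ)) - 1) hge
  have f1 : ∑ t ∈ A, (∏ p ∈ Bp N w y t t, (1 + C / (p : ℝ)) - 1) ≤ η / 3 * A.card := by
    refine le_trans (le_of_eq ?_) hr1
    refine sum_congr rfl fun t _ => ?_
    unfold Bp bd
    simp
  have f2 : ∑ s ∈ A, ∑ t ∈ A.erase s, (∏ p ∈ Bp N w y s t, (1 + C / (p : ℝ)) - 1) ≤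
      A.card * (η / 3 * A.card) := by
    rw [← nsmul_eq_mul, ← sum_const]
    refine sum_le_sum fun s hs => ?_
    refine le_trans (le_of_eq ?_) (hr2 s hs)
    refine sum_congr rfl fun t ht => ?_
    have hne : s ≠ t := (ne_of_mem_erase ht).symm
    unfold Bp bd
    simp only [if_neg hne]
  have hcj : (0 : ℝ) ≤ (A.card : ℝ) ^ j := by positivity
  rcases Nat.eq_zero_or_pos A.card with h0 | hpos
  · have hAe : A = ∅ := card_eq_zero.1 h0
    have h1 : ∀ T ∈ A.powersetCard j, T = ∅ := fun T hT => by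
      have := (mem_powersetCard.1 hT).1
      rw [hAe] at this
      exact subset_empty.1 this
    have e1 : ∑ T ∈ A.powersetCard j, ∑ t ∈ T, (∏ p ∈ Bp N w y t t, (1 + C / (p : ℝ)) - 1) = 0 :=
      sum_eq_zero fun T hT => by rw [h1 T hT, sum_empty]
    have e2 : ∑ T ∈ A.powersetCard j, ∑ s ∈ T, ∑ t ∈ T.erase s,
        (∏ p ∈ Bp N w y s t, (1 + C / (p : ℝ)) - 1) = 0 :=
      sum_eq_zero fun T hT => by rw [h1 T hT, sum_empty]
    rw [e1, e2]
    have := mul_le_mul_of_nonneg_right hcard (by positivity : 0 ≤ η / 3)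
    nlinarith
  · have hc : (0 : ℝ) < A.card := by exact_mod_cast hpos
    have k1 : ∑ T ∈ A.powersetCard j, ∑ t ∈ T, (∏ p ∈ Bp N w y t t, (1 + C / (p : ℝ)) - 1) ≤
        η / 3 * (A.card : ℝ) ^ j := by
      have h1 := g1.trans (mul_le_mul_of_nonneg_left f1 hcj)
      refine le_of_mul_le_mul_right (h1.trans (le_of_eq ?_)) hc
      ring
    have k2 : ∑ T ∈ A.powersetCard j, ∑ s ∈ T, ∑ t ∈ T.erase s,
        (∏ p ∈ Bp N w y s t, (1 + C / (p : ℝ)) - 1) ≤ η / 3 * (A.card : ℝ) ^ j := by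
      have h1 := g2.trans (mul_le_mul_of_nonneg_left f2 hcj)
      refine le_of_mul_le_mul_right (h1.trans (le_of_eq ?_)) (pow_pos hc 2)
      ring
    have k3 := mul_le_mul_of_nonneg_right hcard (by positivity : 0 ≤ η / 3)
    nlinarith

/-- **RAV2** -/
theorem rav2 (k : ℕ) (η : ℝ) (hη : 0 < η) : ∃ w₀ : ℕ, 2 ≤ w₀ ∧ ∀ w : ℕ, w₀ ≤ w → ∀ᶠ N : ℕ in atTop, ∀ H y : ℕ,
    Real.log N ≤ H → H ≤ N → w ≤ y → ∀ j ≤ k,
    ∑ T ∈ (AW w N H).powersetCard j, |Pq (QW (sh N T)) y - GG w y ^ j| ≤ η * (GG w y * (AW w N H).card) ^ j :=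
  rav2_of rav1 k η hη

end Pool.Agent.J4.H31.DV
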