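import Mathlib
import Pool.Agent.J4.H38.DV.Defs
import Pool.Agent.TH891.SG.Gal3

/-! Project DV (helper38), piece STEP: from the duality inequality to one step of the chain. -/

set_option autoImplicit false

namespace Pool.Agent.J4.H31.DV

open Finset Filter
open Pool.Agent.TH891.SG (sum_insert_pairs)

lemma third (A : Finset ℕ) (j : ℕ) (δ : Finset ℕ → ℝ) (hδ : ∀ T, 0 ≤ δ T) (G : ℝ) (hG : 0 ≤ G) :
    ∑ S ∈ A.powersetCard j, ∑ t ∈ A \ S, ∑ u ∈ (A \ S).erase t,
      (δ (insert u (insert t S)) + G * δ (insert t S) + G * δ (insert u S) + G ^ 2 * δ S) ≤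
      ((j : ℝ) + 1) * (((j : ℝ) + 2) * ∑ T ∈ A.powersetCard (j + 2), δ T) +
        2 * (G * A.card * (((j : ℝ) + 1) * ∑ T ∈ A.powersetCard (j + 1), δ T)) +
          G ^ 2 * (A.card : ℝ) ^ 2 * ∑ T ∈ A.powersetCard j, δ T := by
  classical
  have hc0 : (0 : ℝ) ≤ A.card := Nat.cast_nonneg _
  have h1 : ∑ S ∈ A.powersetCard j, ∑ t ∈ A \ S, ∑ u ∈ (A \ S).erase t, δ (insert u (insert t S)) =
      ((j : ℝ) + 1) * (((j : ℝ) + 2) * ∑ T ∈ A.powersetCard (j + 2), δ T) := by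
    have e1 := sum_insert_pairs A j (fun T => ∑ u ∈ A \ T, δ (insert u T))
    have e2 := sum_insert_pairs A (j + 1) δ
    have e3 : ∑ S ∈ A.powersetCard j, ∑ t ∈ A \ S, ∑ u ∈ (A \ S).erase t, δ (insert u (insert t S)) =
        ∑ S ∈ A.powersetCard j, ∑ t ∈ A \ S, ∑ u ∈ A \ insert t S, δ (insert u (insert t S)) := by
      refine sum_congr rfl fun S _ => sum_congr rfl fun t _ => sum_congr ?_ fun _ _ => rfl
      ext u
      simp only [mem_erase, Finset.mem_sdiff, mem_insert]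
      tauto
    rw [e3, ← e1, ← e2]
    push_cast
    ring
  have h2 : ∑ S ∈ A.powersetCard j, ∑ t ∈ A \ S, ∑ _u ∈ (A \ S).erase t, G * δ (insert t S) ≤
      G * A.card * (((j : ℝ) + 1) * ∑ T ∈ A.powersetCard (j + 1), δ T) := by
    rw [sum_insert_pairs A j δ, mul_sum]
    refine sum_le_sum fun S _ => ?_
    rw [mul_sum]
    refine sum_le_sum fun t _ => ?_
    rw [sum_const, nsmul_eq_mul]
    have h3 : ((((A \ S).erase t).card : ℕ) : ℝ) ≤ A.card := by
      exact_mod_cast (card_le_card (erase_subset _ _)).trans (card_le_card sdiff_subset)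
    have h4 := mul_le_mul_of_nonneg_right h3 (mul_nonneg hG (hδ (insert t S)))
    linarith
  have h3 : ∑ S ∈ A.powersetCard j, ∑ t ∈ A \ S, ∑ u ∈ (A \ S).erase t, G * δ (insert u S) ≤
      G * A.card * (((j : ℝ) + 1) * ∑ T ∈ A.powersetCard (j + 1), δ T) := by
    rw [sum_insert_pairs A j δ, mul_sum]
    refine sum_le_sum fun S _ => ?_
    have h4 : ∀ t ∈ A \ S, ∑ u ∈ (A \ S).erase t, G * δ (insert u S) ≤ ∑ u ∈ A \ S, G * δ (insert u S) :=
      fun t _ => sum_le_sum_of_subset_of_nonneg (erase_subset _ _) fun u _ _ => mul_nonneg hG (hδ _)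
    refine (sum_le_sum h4).trans ?_
    rw [sum_const, nsmul_eq_mul, ← mul_sum]
    have h5 : (((A \ S).card : ℕ) : ℝ) ≤ A.card := by exact_mod_cast card_le_card sdiff_subset
    have h6 := mul_le_mul_of_nonneg_right h5 (mul_nonneg hG (sum_nonneg fun u (_ : u ∈ A \ S) => hδ (insert u S)))
    linarith
  have h4 : ∑ S ∈ A.powersetCard j, ∑ t ∈ A \ S, ∑ _u ∈ (A \ S).erase t, G ^ 2 * δ S ≤
      G ^ 2 * (A.card : ℝ) ^ 2 * ∑ T ∈ A.powersetCard j, δ T := by
    rw [mul_sum]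
    refine sum_le_sum fun S _ => ?_
    have h5 : ∀ t ∈ A \ S, ∑ _u ∈ (A \ S).erase t, G ^ 2 * δ S ≤ A.card * (G ^ 2 * δ S) := by
      intro t _
      rw [sum_const, nsmul_eq_mul]
      refine mul_le_mul_of_nonneg_right ?_ (mul_nonneg (sq_nonneg G) (hδ S))
      exact_mod_cast (card_le_card (erase_subset _ _)).trans (card_le_card sdiff_subset)
    refine (sum_le_sum h5).trans ?_
    rw [sum_const, nsmul_eq_mul]
    have h6 : (((A \ S).card : ℕ) : ℝ) ≤ A.card := by exact_mod_cast card_le_card sdiff_subset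
    have h7 := mul_le_mul_of_nonneg_right h6 (mul_nonneg hc0 (mul_nonneg (sq_nonneg G) (hδ S)))
    nlinarith
  have e : ∑ S ∈ A.powersetCard j, ∑ t ∈ A \ S, ∑ u ∈ (A \ S).erase t,
      (δ (insert u (insert t S)) + G * δ (insert t S) + G * δ (insert u S) + G ^ 2 * δ S) =
      ∑ S ∈ A.powersetCard j, ∑ t ∈ A \ S, ∑ u ∈ (A \ S).erase t, δ (insert u (insert t S)) +
      ∑ S ∈ A.powersetCard j, ∑ t ∈ A \ S, ∑ _u ∈ (A \ S).erase t, G * δ (insert t S) +
      ∑ S ∈ A.powersetCard j, ∑ t ∈ A \ S, ∑ u ∈ (A \ S).erase t, G * δ (insert u S) +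
      ∑ S ∈ A.powersetCard j, ∑ t ∈ A \ S, ∑ _u ∈ (A \ S).erase t, G ^ 2 * δ S := by
    simp only [sum_add_distrib]
  rw [e]
  linarith

/-- **STEP**, abstract form: `F T` approximates `n G^i` on average -/
theorem step_abs (j : ℕ) : ∃ C : ℝ, 0 < C ∧ ∀ (A : Finset ℕ) (L : ℝ) (F : Finset ℕ → ℝ) (G η n e₀ : ℝ)
    (P : Finset ℕ → ℝ), 0 ≤ L → (∀ T, 0 ≤ F T) →
    L ^ 2 ≤ (∑ S ∈ A.powersetCard j, F S) * ∑ S ∈ A.powersetCard j,
        (∑ t ∈ A \ S, (F (insert t S) + G ^ 2 * F S) +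
          ∑ t ∈ A \ S, ∑ u ∈ (A \ S).erase t, |F (insert u (insert t S)) - G * F (insert t S) -
            G * F (insert u S) + G ^ 2 * F S|) →
    0 < G → G ≤ 1 → 0 < η → η ≤ 1 → 0 ≤ n → 0 ≤ e₀ → 1 ≤ η * (G * A.card) →
    e₀ ≤ η * (n * G ^ (j + 2)) → (∀ T ⊆ A, T.card ≤ j + 2 → 0 ≤ P T ∧ |F T - n * P T| ≤ η * (n * P T) + e₀) →
    (∀ i ≤ j + 2, ∑ T ∈ A.powersetCard i, |P T - G ^ i| ≤ η * (G * A.card) ^ i) →
    L ≤ C * Real.sqrt η * (n * (G * A.card) ^ (j + 1)) := by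
  classical
  obtain ⟨K, hK⟩ : ∃ K : ℝ, K = 5 * ((j : ℝ) + 2) + 4 * (((j : ℝ) + 1) * ((j : ℝ) + 2) + 2 * ((j : ℝ) + 1) + 1) :=
    ⟨_, rfl⟩
  have hj0 : (0 : ℝ) ≤ j := Nat.cast_nonneg j
  have hK0 : 0 < K := by rw [hK]; positivity
  refine ⟨Real.sqrt (5 * K), Real.sqrt_pos.2 (by positivity), ?_⟩
  intro A L F G η n e₀ P hL hF0 hdual hG hG1 hη hη1 hn he0 hηg he hP hsum
  have hc0 : (0 : ℝ) ≤ A.card := Nat.cast_nonneg _
  obtain ⟨g, hg⟩ : ∃ g, g = G * (A.card : ℝ) := ⟨_, rfl⟩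
  rw [← hg] at hηg hsum ⊢
  have hg0 : 0 ≤ g := by rw [hg]; positivity
  have hg1 : 1 ≤ g := by nlinarith
  -- the deviations
  obtain ⟨δ, hδd⟩ : ∃ δ : Finset ℕ → ℝ, δ = fun T => |F T - n * G ^ T.card| := ⟨_, rfl⟩
  have hδ0 : ∀ T, 0 ≤ δ T := fun T => by rw [hδd]; exact abs_nonneg _
  have hchoose : ∀ i, (((A.powersetCard i).card : ℕ) : ℝ) ≤ (A.card : ℝ) ^ i := by
    intro i
    rw [card_powersetCard]
    exact_mod_cast Nat.choose_le_pow A.card i
  have hD : ∀ i ≤ j + 2, ∑ T ∈ A.powersetCard i, δ T ≤ 4 * (η * (n * g ^ i)) := by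
    intro i hi
    have h1 : ∀ T ∈ A.powersetCard i, δ T ≤ (η * (n * G ^ i) + e₀) + 2 * (n * |P T - G ^ i|) := by
      intro T hT
      rw [mem_powersetCard] at hT
      obtain ⟨hP0, hP1⟩ := hP T hT.1 (by omega)
      rw [hδd]
      simp only
      rw [hT.2]
      have h2 : F T - n * G ^ i = (F T - n * P T) + n * (P T - G ^ i) := by ring
      rw [h2]
      refine (abs_add_le _ _).trans ?_
      rw [abs_mul, abs_of_nonneg hn]
      have h3 : P T ≤ G ^ i + |P T - G ^ i| := by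
        have := le_abs_self (P T - G ^ i)
        linarith
      have h4 : η * (n * P T) ≤ η * (n * (G ^ i + |P T - G ^ i|)) :=
        mul_le_mul_of_nonneg_left (mul_le_mul_of_nonneg_left h3 hn) hη.le
      have h5 : 0 ≤ n * |P T - G ^ i| := mul_nonneg hn (abs_nonneg _)
      nlinarith
    refine (sum_le_sum h1).trans ?_
    rw [sum_add_distrib, sum_const, nsmul_eq_mul, ← mul_sum, ← mul_sum]
    have h2 : e₀ ≤ η * (n * G ^ i) := by
      refine he.trans ?_
      refine mul_le_mul_of_nonneg_left (mul_le_mul_of_nonneg_left ?_ hn) hη.le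
      exact pow_le_pow_of_le_one hG.le hG1 hi
    have h3 : (((A.powersetCard i).card : ℕ) : ℝ) * (η * (n * G ^ i) + e₀) ≤
        (A.card : ℝ) ^ i * (2 * (η * (n * G ^ i))) := by
      refine mul_le_mul (hchoose i) (by linarith) (by positivity) (by positivity)
    have h4 : (A.card : ℝ) ^ i * (2 * (η * (n * G ^ i))) = 2 * (η * (n * g ^ i)) := by
      rw [hg, mul_pow]; ring
    have h5 := mul_le_mul_of_nonneg_left (hsum i hi) hn
    nlinarith
  have hM : ∀ i ≤ j + 2, ∑ T ∈ A.powersetCard i, F T ≤ 5 * (n * g ^ i) := by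
    intro i hi
    have h1 : ∀ T ∈ A.powersetCard i, F T ≤ n * G ^ i + δ T := by
      intro T hT
      rw [mem_powersetCard] at hT
      rw [hδd]
      simp only
      rw [hT.2]
      have := le_abs_self (F T - n * G ^ i)
      linarith
    refine (sum_le_sum h1).trans ?_
    rw [sum_add_distrib, sum_const, nsmul_eq_mul]
    have h2 : (((A.powersetCard i).card : ℕ) : ℝ) * (n * G ^ i) ≤ (A.card : ℝ) ^ i * (n * G ^ i) :=
      mul_le_mul_of_nonneg_right (hchoose i) (by positivity)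
    have h3 : (A.card : ℝ) ^ i * (n * G ^ i) = n * g ^ i := by rw [hg, mul_pow]; ring
    have h4 := hD i hi
    have h5 : η * (n * g ^ i) ≤ 1 * (n * g ^ i) := mul_le_mul_of_nonneg_right hη1 (by positivity)
    linarith
  -- the first part
  have hpart1 : ∑ S ∈ A.powersetCard j, ∑ t ∈ A \ S, (F (insert t S) + G ^ 2 * F S) ≤
      5 * ((j : ℝ) + 2) * (η * (n * g ^ (j + 2))) := by
    have h1 : ∑ S ∈ A.powersetCard j, ∑ t ∈ A \ S, (F (insert t S) + G ^ 2 * F S) =
        ∑ S ∈ A.powersetCard j, ∑ t ∈ A \ S, F (insert t S) + ∑ S ∈ A.powersetCard j, ∑ _t ∈ A \ S, G ^ 2 * F S := by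
      simp only [sum_add_distrib]
    rw [h1, ← sum_insert_pairs A j F]
    have h2 : ∑ S ∈ A.powersetCard j, ∑ _t ∈ A \ S, G ^ 2 * F S ≤ A.card * G ^ 2 * ∑ S ∈ A.powersetCard j, F S := by
      rw [mul_sum]
      refine sum_le_sum fun S _ => ?_
      rw [sum_const, nsmul_eq_mul]
      have h3 : (((A \ S).card : ℕ) : ℝ) ≤ A.card := by exact_mod_cast card_le_card sdiff_subset
      have h4 := mul_le_mul_of_nonneg_right h3 (mul_nonneg (sq_nonneg G) (hF0 S))
      linarith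
    have h3 := mul_le_mul_of_nonneg_left (hM (j + 1) (by omega)) (by positivity : 0 ≤ (j : ℝ) + 1)
    have h4 := mul_le_mul_of_nonneg_left (hM j (by omega)) (by positivity : 0 ≤ (A.card : ℝ) * G ^ 2)
    have h5 : (A.card : ℝ) * G ^ 2 * (5 * (n * g ^ j)) ≤ 5 * (n * g ^ (j + 1)) := by
      have h6 : (A.card : ℝ) * G ^ 2 * (5 * (n * g ^ j)) = G * (5 * (n * g ^ (j + 1))) := by
        rw [pow_succ, hg]; ring
      rw [h6]
      have : 0 ≤ 5 * (n * g ^ (j + 1)) := by positivity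
      nlinarith
    have h6 : n * g ^ (j + 1) ≤ η * (n * g ^ (j + 2)) := by
      have h7 : η * (n * g ^ (j + 2)) = (η * g) * (n * g ^ (j + 1)) := by ring
      rw [h7]
      have : 0 ≤ n * g ^ (j + 1) := by positivity
      nlinarith
    have h7 : 5 * ((j : ℝ) + 2) * (n * g ^ (j + 1)) ≤ 5 * ((j : ℝ) + 2) * (η * (n * g ^ (j + 2))) :=
      mul_le_mul_of_nonneg_left h6 (by positivity)
    linarith
  have hpart2 : ∑ S ∈ A.powersetCard j, ∑ t ∈ A \ S, ∑ u ∈ (A \ S).erase t,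
      |F (insert u (insert t S)) - G * F (insert t S) - G * F (insert u S) + G ^ 2 * F S| ≤
      4 * (((j : ℝ) + 1) * ((j : ℝ) + 2) + 2 * ((j : ℝ) + 1) + 1) * (η * (n * g ^ (j + 2))) := by
    have h1 : ∑ S ∈ A.powersetCard j, ∑ t ∈ A \ S, ∑ u ∈ (A \ S).erase t,
        |F (insert u (insert t S)) - G * F (insert t S) - G * F (insert u S) + G ^ 2 * F S| ≤
        ∑ S ∈ A.powersetCard j, ∑ t ∈ A \ S, ∑ u ∈ (A \ S).erase t,
          (δ (insert u (insert t S)) + G * δ (insert t S) + G * δ (insert u S) + G ^ 2 * δ S) := by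
      refine sum_le_sum fun S hS => sum_le_sum fun t ht => sum_le_sum fun u hu => ?_
      rw [mem_powersetCard] at hS
      rw [Finset.mem_sdiff] at ht
      rw [mem_erase, Finset.mem_sdiff] at hu
      have c1 : (insert t S).card = j + 1 := by rw [card_insert_of_notMem ht.2, hS.2]
      have c2 : (insert u S).card = j + 1 := by rw [card_insert_of_notMem hu.2.2, hS.2]
      have c3 : (insert u (insert t S)).card = j + 2 := by
        rw [card_insert_of_notMem, c1]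
        rw [mem_insert]
        rintro (h | h)
        · exact hu.1 h
        · exact hu.2.2 h
      rw [hδd]
      simp only
      rw [c1, c2, c3, hS.2]
      have e1 : F (insert u (insert t S)) - G * F (insert t S) - G * F (insert u S) + G ^ 2 * F S =
          (F (insert u (insert t S)) - n * G ^ (j + 2)) + (-(G * (F (insert t S) - n * G ^ (j + 1)))) +
            (-(G * (F (insert u S) - n * G ^ (j + 1)))) + G ^ 2 * (F S - n * G ^ j) := by ring
      rw [e1]
      refine (abs_add_le _ _).trans (add_le_add ((abs_add_le _ _).trans (add_le_add ((abs_add_le _ _).trans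
        (add_le_add le_rfl ?_)) ?_)) ?_)
      · rw [abs_neg, abs_mul, abs_of_pos hG]
      · rw [abs_neg, abs_mul, abs_of_pos hG]
      · rw [abs_mul, abs_of_nonneg (sq_nonneg G)]
    refine h1.trans ((third A j δ hδ0 G hG.le).trans ?_)
    have d2 := mul_le_mul_of_nonneg_left (mul_le_mul_of_nonneg_left (hD (j + 2) le_rfl)
      (by positivity : 0 ≤ (j : ℝ) + 2)) (by positivity : 0 ≤ (j : ℝ) + 1)
    have d1 := mul_le_mul_of_nonneg_left (mul_le_mul_of_nonneg_left (hD (j + 1) (by omega))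
      (by positivity : 0 ≤ (j : ℝ) + 1)) hg0
    have d0 := mul_le_mul_of_nonneg_left (hD j (by omega)) (by positivity : 0 ≤ g ^ 2)
    have e1 : g * (((j : ℝ) + 1) * (4 * (η * (n * g ^ (j + 1))))) = 4 * ((j : ℝ) + 1) * (η * (n * g ^ (j + 2))) := by
      ring
    have e0 : g ^ 2 * (4 * (η * (n * g ^ j))) = 4 * (η * (n * g ^ (j + 2))) := by ring
    rw [e1] at d1
    rw [e0] at d0
    have f1 : G * (A.card : ℝ) = g := hg.symm
    have f2 : G ^ 2 * (A.card : ℝ) ^ 2 = g ^ 2 := by rw [hg]; ring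
    rw [f1, f2]
    nlinarith
  have hR : ∑ S ∈ A.powersetCard j,
        (∑ t ∈ A \ S, (F (insert t S) + G ^ 2 * F S) +
          ∑ t ∈ A \ S, ∑ u ∈ (A \ S).erase t, |F (insert u (insert t S)) - G * F (insert t S) -
            G * F (insert u S) + G ^ 2 * F S|) ≤ K * (η * (n * g ^ (j + 2))) := by
    rw [sum_add_distrib, hK]
    nlinarith
  have hfin : L ^ 2 ≤ (Real.sqrt (5 * K) * Real.sqrt η * (n * g ^ (j + 1))) ^ 2 := by
    refine hdual.trans ?_
    have h1 : (Real.sqrt (5 * K) * Real.sqrt η * (n * g ^ (j + 1))) ^ 2 =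
        (5 * (n * g ^ j)) * (K * (η * (n * g ^ (j + 2)))) := by
      rw [mul_pow, mul_pow, Real.sq_sqrt (by positivity), Real.sq_sqrt hη.le]
      ring
    rw [h1]
    refine mul_le_mul (hM j (by omega)) hR ?_ (by positivity)
    refine sum_nonneg fun S _ => add_nonneg (sum_nonneg fun t _ => add_nonneg (hF0 _)
      (mul_nonneg (sq_nonneg G) (hF0 _))) (sum_nonneg fun t _ => sum_nonneg fun u _ => abs_nonneg _)
  exact le_of_sq_le_sq hfin (by positivity)

end Pool.Agent.J4.H31.DV
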