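import Mathlib
import Pool.Agent.J4.H31.DV.Step
import Pool.Agent.J4.H38.DV.Dual

/-! Project DV (helper38), piece STEP. -/

set_option autoImplicit false

namespace Pool.Agent.J4.H31.DV

open Finset Filter
open Pool.Agent.Y822
open Pool.Agent.J4.H38.DV

lemma Fs_nonneg (μ : ℕ → ℝ) (hμ : ∀ m, 0 ≤ μ m) (N y : ℕ) (T : Finset ℕ) : 0 ≤ Fs μ N y T := by
  unfold Fs
  refine sum_nonneg fun m _ => mul_nonneg (hμ m) (prod_nonneg fun t _ => ?_)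
  unfold ro
  split_ifs <;> norm_num

/-- **STEP** -/
theorem stepD (j : ℕ) : ∃ C : ℝ, 0 < C ∧ ∀ (N y : ℕ) (A : Finset ℕ) (f μ : ℕ → ℝ), (∀ m, 0 ≤ f m ∧ f m ≤ μ m) →
    ∀ (G η n e₀ : ℝ) (P : Finset ℕ → ℝ), 0 < G → G ≤ 1 → 0 < η → η ≤ 1 → 0 ≤ n → 0 ≤ e₀ → 1 ≤ η * (G * A.card) →
    e₀ ≤ η * (n * G ^ (j + 2)) → (∀ T ⊆ A, T.card ≤ j + 2 → 0 ≤ P T ∧ |Fs μ N y T - n * P T| ≤ η * (n * P T) + e₀) →
    (∀ i ≤ j + 2, ∑ T ∈ A.powersetCard i, |P T - G ^ i| ≤ η * (G * A.card) ^ i) →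
    ∑ S ∈ A.powersetCard j, ∑ t ∈ A \ S, |Fs f N y (insert t S) - G * Fs f N y S| ≤
      C * Real.sqrt η * (n * (G * A.card) ^ (j + 1)) := by
  obtain ⟨C, hC, h⟩ := step_abs j
  refine ⟨C, hC, fun N y A f μ hf G η n e₀ P hG hG1 hη hη1 hn he0 hηg he hP hsum => ?_⟩
  exact h A _ (Fs μ N y) G η n e₀ P (sum_nonneg fun S _ => sum_nonneg fun t _ => abs_nonneg _)
    (Fs_nonneg μ (fun m => (hf m).1.trans (hf m).2) N y) (dual N y A j f μ hf G hG.le) hG hG1 hη hη1 hn he0 hηg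
    he hP hsum

end Pool.Agent.J4.H31.DV
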