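import Mathlib
import Pool.Agent.J4.H31.DV.Step
import Pool.Agent.J4.H38.DV.TDefs

/-! Project DV (helper38), piece STEPT (twin version). -/

set_option autoImplicit false

namespace Pool.Agent.J4.H31.DV

open Finset Filter
open Pool.Agent.Y822
open Pool.Agent.J4.H38.DV

lemma Ft_nonneg (μ : ℕ → ℝ) (hμ : ∀ m, 0 ≤ μ m) (N y : ℕ) (T : Finset ℕ) : 0 ≤ Ft μ N y T := by
  unfold Ft
  refine sum_nonneg fun m _ => mul_nonneg (hμ m) (prod_nonneg fun t _ => ?_)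
  unfold ro
  split_ifs <;> norm_num

/-- **STEPT** from DUALT -/
theorem stepDT_of (dualT : ∀ (N y : ℕ) (A : Finset ℕ) (j : ℕ) (f μ : ℕ → ℝ), (∀ m, 0 ≤ f m ∧ f m ≤ μ m) →
      ∀ (G : ℝ), 0 ≤ G →
      (∑ S ∈ A.powersetCard j, ∑ t ∈ A \ S, |Ft f N y (insert t S) - G * Ft f N y S|) ^ 2 ≤
      (∑ S ∈ A.powersetCard j, Ft μ N y S) * ∑ S ∈ A.powersetCard j,
        (∑ t ∈ A \ S, (Ft μ N y (insert t S) + G ^ 2 * Ft μ N y S) +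
          ∑ t ∈ A \ S, ∑ u ∈ (A \ S).erase t, |Ft μ N y (insert u (insert t S)) - G * Ft μ N y (insert t S) -
            G * Ft μ N y (insert u S) + G ^ 2 * Ft μ N y S|))
    (j : ℕ) : ∃ C : ℝ, 0 < C ∧ ∀ (N y : ℕ) (A : Finset ℕ) (f μ : ℕ → ℝ), (∀ m, 0 ≤ f m ∧ f m ≤ μ m) →
    ∀ (G η n e₀ : ℝ) (P : Finset ℕ → ℝ), 0 < G → G ≤ 1 → 0 < η → η ≤ 1 → 0 ≤ n → 0 ≤ e₀ → 1 ≤ η * (G * A.card) →
    e₀ ≤ η * (n * G ^ (j + 2)) → (∀ T ⊆ A, T.card ≤ j + 2 → 0 ≤ P T ∧ |Ft μ N y T - n * P T| ≤ η * (n * P T) + e₀) →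
    (∀ i ≤ j + 2, ∑ T ∈ A.powersetCard i, |P T - G ^ i| ≤ η * (G * A.card) ^ i) →
    ∑ S ∈ A.powersetCard j, ∑ t ∈ A \ S, |Ft f N y (insert t S) - G * Ft f N y S| ≤
      C * Real.sqrt η * (n * (G * A.card) ^ (j + 1)) := by
  obtain ⟨C, hC, h⟩ := step_abs j
  refine ⟨C, hC, fun N y A f μ hf G η n e₀ P hG hG1 hη hη1 hn he0 hηg he hP hsum => ?_⟩
  exact h A _ (Ft μ N y) G η n e₀ P (sum_nonneg fun S _ => sum_nonneg fun t _ => abs_nonneg _)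
    (Ft_nonneg μ (fun m => (hf m).1.trans (hf m).2) N y) (dualT N y A j f μ hf G hG.le) hG hG1 hη hη1 hn he0 hηg
    he hP hsum

end Pool.Agent.J4.H31.DV
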